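import Pool.Agent.Helper14.PS.Orth

/-!
# PS-Es: the sieve with elementary symmetric functions

PROOF.  `f t = ∑ S ∈ R.powersetCard s, ∏ r ∈ S, g r t`.  On `T`: `f t ≥ c ^ s * choose #R s` (`Finset.card_powersetCard`,
`Finset.prod_le_prod`).  So `#T * (c ^ s * choose) ^ 2 ≤ ∑ t ∈ Bx k N, f t ^ 2 = ∑ S, ∑ S', ∑ t, ..` (`Finset.sum_mul_sum`,
`Finset.sum_comm`); the pairs `S = S'` give at most `N ^ k` each (`Osc.bd`, `card_Bx`), the others by `orth` at most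
`k x ^ (2 s) N ^ (k - 1)`, because `S ∪ S'` has at most `2 s` elements, each `≤ x` (and `x ≥ 1` if `R` is not empty; the case
`R = ∅` is trivial: there is only one `S`).
-/

set_option autoImplicit false

namespace Pool.Agent.Helper14.PS

open Finset

theorem es_bound {k : ℕ} (R : Finset ℕ) (hR : ∀ r ∈ R, r.Prime) (g : ℕ → (Fin k → ℤ) → ℝ)
    (hg : ∀ r ∈ R, Osc r (g r)) (c : ℝ) (hc : 0 < c) (T : Finset (Fin k → ℤ)) (N : ℕ)
    (hT : T ⊆ Bx k N) (hTg : ∀ t ∈ T, ∀ r ∈ R, c ≤ g r t) (x s : ℕ) (hx : ∀ r ∈ R, r ≤ x) :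
    (#T : ℝ) * (c ^ s * ((#R).choose s : ℝ)) ^ 2 ≤
      ((#R).choose s : ℝ) * (N : ℝ) ^ k +
        ((#R).choose s : ℝ) ^ 2 * (k * (x : ℝ) ^ (2 * s) * (N : ℝ) ^ (k - 1)) := by
  classical
  set P := R.powersetCard s with hP
  have hPc : (#P : ℝ) = ((#R).choose s : ℝ) := by rw [hP, Finset.card_powersetCard]
  have hmem : ∀ S ∈ P, S ⊆ R ∧ #S = s := fun S hS => Finset.mem_powersetCard.1 hS
  set f : (Fin k → ℤ) → ℝ := fun t => ∑ S ∈ P, ∏ r ∈ S, g r t with hf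
  have h1 : ∀ t ∈ T, c ^ s * ((#R).choose s : ℝ) ≤ f t := by
    intro t ht
    rw [← hPc]
    have h0 : ∑ _S ∈ P, c ^ s ≤ f t := by
      refine Finset.sum_le_sum fun S hS => ?_
      obtain ⟨h2, h3⟩ := hmem S hS
      calc c ^ s = ∏ _r ∈ S, c := by rw [Finset.prod_const, h3]
        _ ≤ ∏ r ∈ S, g r t :=
          Finset.prod_le_prod (fun _ _ => hc.le) (fun r hr => hTg t ht r (h2 hr))
    calc c ^ s * (#P : ℝ) = ∑ _S ∈ P, c ^ s := by
          rw [Finset.sum_const, nsmul_eq_mul, mul_comm]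
      _ ≤ f t := h0
  have h2 : (#T : ℝ) * (c ^ s * ((#R).choose s : ℝ)) ^ 2 ≤ ∑ t ∈ Bx k N, f t ^ 2 := by
    calc (#T : ℝ) * (c ^ s * ((#R).choose s : ℝ)) ^ 2
        = ∑ _t ∈ T, (c ^ s * ((#R).choose s : ℝ)) ^ 2 := by
          rw [Finset.sum_const, nsmul_eq_mul]
      _ ≤ ∑ t ∈ T, f t ^ 2 :=
          Finset.sum_le_sum fun t ht => pow_le_pow_left₀ (by positivity) (h1 t ht) 2
      _ ≤ ∑ t ∈ Bx k N, f t ^ 2 :=
          Finset.sum_le_sum_of_subset_of_nonneg hT fun _ _ _ => sq_nonneg _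
  refine h2.trans ?_
  have h3 : ∑ t ∈ Bx k N, f t ^ 2 = ∑ S ∈ P, ∑ S' ∈ P, ∑ t ∈ Bx k N,
      (∏ r ∈ S, g r t) * ∏ r ∈ S', g r t := by
    have h0 : ∀ t, f t ^ 2 = ∑ S ∈ P, ∑ S' ∈ P, (∏ r ∈ S, g r t) * ∏ r ∈ S', g r t := by
      intro t
      rw [sq, hf, Finset.sum_mul_sum]
    rw [Finset.sum_congr rfl fun t _ => h0 t, Finset.sum_comm]
    refine Finset.sum_congr rfl fun S _ => ?_
    rw [Finset.sum_comm]
  rw [h3]
  set E : ℝ := k * (x : ℝ) ^ (2 * s) * (N : ℝ) ^ (k - 1) with hE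
  have hE0 : 0 ≤ E := by positivity
  have h4 : ∀ S ∈ P, ∀ S' ∈ P, ∑ t ∈ Bx k N, (∏ r ∈ S, g r t) * ∏ r ∈ S', g r t ≤
      (if S = S' then (N : ℝ) ^ k else 0) + E := by
    intro S hS S' hS'
    obtain ⟨h5, h6⟩ := hmem S hS
    obtain ⟨h7, h8⟩ := hmem S' hS'
    have hun : ∀ r ∈ S ∪ S', r ∈ R := by
      intro r hr
      rcases Finset.mem_union.1 hr with h | h
      · exact h5 h
      · exact h7 h
    by_cases h : S = S'
    · rw [if_pos h]
      have h9 : ∀ S₀ ⊆ R, ∀ t, |∏ r ∈ S₀, g r t| ≤ 1 := by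
        intro S₀ hS₀ t
        rw [Finset.abs_prod]
        exact Finset.prod_le_one (fun _ _ => abs_nonneg _) (fun r hr => (hg r (hS₀ hr)).bd t)
      have h10 : ∑ t ∈ Bx k N, (∏ r ∈ S, g r t) * ∏ r ∈ S', g r t ≤ ∑ _t ∈ Bx k N, (1 : ℝ) := by
        refine Finset.sum_le_sum fun t _ => ?_
        refine (le_abs_self _).trans ?_
        rw [abs_mul]
        calc |∏ r ∈ S, g r t| * |∏ r ∈ S', g r t| ≤ 1 * 1 :=
              mul_le_mul (h9 S h5 t) (h9 S' h7 t) (abs_nonneg _) zero_le_one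
          _ = 1 := one_mul 1
      have h11 : ∑ _t ∈ Bx k N, (1 : ℝ) = (N : ℝ) ^ k := by
        rw [Finset.sum_const, nsmul_eq_mul, mul_one, card_Bx]
        push_cast
        rfl
      linarith
    · rw [if_neg h, zero_add]
      refine (le_abs_self _).trans ((orth g S S' (fun r hr => hR r (hun r hr))
        (fun r hr => hg r (hun r hr)) h N).trans ?_)
      have hne : (S ∪ S').Nonempty := by
        rw [Finset.nonempty_iff_ne_empty]
        intro h0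
        rw [Finset.union_eq_empty] at h0
        exact h (h0.1.trans h0.2.symm)
      obtain ⟨r₀, hr₀⟩ := hne
      have hx1 : (1 : ℝ) ≤ x := by
        have h12 := hx r₀ (hun r₀ hr₀)
        have h13 := (hR r₀ (hun r₀ hr₀)).one_le
        exact_mod_cast h13.trans h12
      have h14 : ∏ r ∈ S ∪ S', (r : ℝ) ≤ (x : ℝ) ^ (2 * s) := by
        calc ∏ r ∈ S ∪ S', (r : ℝ) ≤ ∏ _r ∈ S ∪ S', (x : ℝ) :=
              Finset.prod_le_prod (fun _ _ => by positivity)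
                (fun r hr => by exact_mod_cast hx r (hun r hr))
          _ = (x : ℝ) ^ #(S ∪ S') := by rw [Finset.prod_const]
          _ ≤ (x : ℝ) ^ (2 * s) := pow_le_pow_right₀ hx1 (by
              have := Finset.card_union_le S S'
              omega)
      rw [hE]
      gcongr
  refine (Finset.sum_le_sum fun S hS => Finset.sum_le_sum fun S' hS' => h4 S hS S' hS').trans ?_
  simp only [Finset.sum_add_distrib, Finset.sum_const, nsmul_eq_mul]
  have h15 : ∑ S ∈ P, ∑ S' ∈ P, (if S = S' then (N : ℝ) ^ k else 0) = (#P : ℝ) * (N : ℝ) ^ k := by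
    rw [Finset.sum_congr rfl fun S hS => (by
      rw [Finset.sum_ite_eq P S (fun _ => (N : ℝ) ^ k), if_pos hS] :
        ∑ S' ∈ P, (if S = S' then (N : ℝ) ^ k else 0) = (N : ℝ) ^ k)]
    rw [Finset.sum_const, nsmul_eq_mul]
  rw [h15, hPc]
  apply le_of_eq
  ring

end Pool.Agent.Helper14.PS
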