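import Pool.Agent.Helper14.PS.Key
import Pool.Agent.Helper14.PS.Es
import Pool.Agent.Helper14.PS.Num

/-!
# PS-Classes: the general counting theorem

`On t P` (later: the member `t` of the family has a point over `P`) is tested modulo every `r` by a set `Bd P r` of residues
of `t` which depends only on the class of `P` modulo `M`.

PROOF.  As `pencil_bound` in Pool/Agent/Helper11/Cov/Pencil.lean with `es_bound` instead of `box_sieve`: `Key5` with
`τ = 1/1000`, `gg = ∑ g i`, `numerics gg k (1 - θ)`, classes `κ = ∀ i, Fin (g i) → ZMod M`, `#κ = M ^ gg`.  For a class `c` with a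
representative `P` (choose) let `T_c` be the set of the `t` in the box with `On t P'` for some `P'` of the class; for `t ∈ T_c`
and `r ∈ R` the reduction of `t` lies in `Bd P' r = Bd P r`.  `g r t = (if (t mod r) ∈ Bd P r then 1 else 0) - #(Bd P r) / r ^ k`
is `Osc` (periodic: casts to `ZMod r`; bounded; the sum over `Bx k r` is `0`: `t ↦ (t mod r)` is a bijection from `Bx k r` to
`Fin k → ZMod r`) and `≥ 1 - θ` on `T_c`.  `es_bound` gives
`#T_c ≤ (1 - θ)^(-2 s) (1 / choose + k x ^ (2 s) / N) N ^ k`, sum over the `M ^ gg` classes and `numerics`.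
-/

set_option autoImplicit false

namespace Pool.Agent.Helper14.PS

open WeierstrassCurve Finset Pool.Agent.Helper11.Cov

open Classical in
/-- The function attached to a set of residues. -/
noncomputable def osc {k r : ℕ} (B : Finset (Fin k → ZMod r)) (t : Fin k → ℤ) : ℝ :=
  (if (fun i => (t i : ZMod r)) ∈ B then 1 else 0) - (#B : ℝ) / (r : ℝ) ^ k

private theorem card_le_pow {k r : ℕ} (hr : 0 < r) (B : Finset (Fin k → ZMod r)) :
    #B ≤ r ^ k := by
  have : NeZero r := ⟨hr.ne'⟩
  have h := Finset.card_le_univ B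
  rwa [Fintype.card_pi, Finset.prod_const, ZMod.card, Finset.card_univ, Fintype.card_fin] at h

theorem osc_Osc {k r : ℕ} (hr : 0 < r) (B : Finset (Fin k → ZMod r)) : Osc r (osc B) := by
  classical
  have : NeZero r := ⟨hr.ne'⟩
  have hrp : (0 : ℝ) < (r : ℝ) ^ k := by
    have : (0 : ℝ) < r := by exact_mod_cast hr
    positivity
  refine ⟨?_, ?_, ?_⟩
  · intro t v
    have : (fun i => ((t i + r * v i : ℤ) : ZMod r)) = fun i => (t i : ZMod r) := by
      funext i
      push_cast
      rw [ZMod.natCast_self, zero_mul, add_zero]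
    unfold osc
    rw [this]
  · intro t
    have h1 : (#B : ℝ) / (r : ℝ) ^ k ≤ 1 := by
      rw [div_le_one hrp]
      exact_mod_cast card_le_pow hr B
    have h0 : 0 ≤ (#B : ℝ) / (r : ℝ) ^ k := by positivity
    unfold osc
    rw [abs_le]
    split_ifs <;> constructor <;> linarith
  · unfold osc
    rw [Finset.sum_sub_distrib, Finset.sum_boole, Finset.sum_const, card_Bx, nsmul_eq_mul]
    have hcard : #{t ∈ Bx k r | (fun i => (t i : ZMod r)) ∈ B} = #B := by
      refine Finset.card_nbij' (fun t => fun i => (t i : ZMod r))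
        (fun b => fun i => ((b i).val : ℤ)) ?_ ?_ ?_ ?_
      · intro t ht
        exact (Finset.mem_filter.mp ht).2
      · intro b hb
        simp only [Finset.coe_filter, Set.mem_ofPred_eq] at *
        refine ⟨?_, ?_⟩
        · rw [mem_Bx]
          intro i
          exact ⟨by positivity, by exact_mod_cast ZMod.val_lt (b i)⟩
        · have : (fun i => ((((b i).val : ℕ) : ℤ) : ZMod r)) = b := by
            funext i
            push_cast
            exact ZMod.natCast_zmod_val (b i)
          rw [this]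
          exact hb
      · intro t ht
        have ht' := (Finset.mem_filter.mp ht).1
        rw [mem_Bx] at ht'
        funext i
        have h1 := ht' i
        show (((t i : ZMod r)).val : ℤ) = t i
        rw [ZMod.val_intCast]
        exact Int.emod_eq_of_lt h1.1 h1.2
      · intro b _
        funext i
        show ((((b i).val : ℕ) : ℤ) : ZMod r) = b i
        push_cast
        exact ZMod.natCast_zmod_val (b i)
    rw [hcard]
    push_cast
    field_simp
    ring

private theorem pow_pred {k : ℕ} (hk : 1 ≤ k) {N : ℝ} (hN : 0 < N) :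
    N ^ (k - 1) = N ^ k / N := by
  rw [eq_div_iff hN.ne', ← pow_succ]
  congr 1
  omega

theorem family_bound {n : ℕ} {a b : Fin n → ℤ} (hK : Key5 a b) {k : ℕ} (hk : 1 ≤ k) {θ : ℝ}
    (hθ0 : 0 ≤ θ) (hθ1 : θ < 1) : ∃ N₀ : ℕ, ∀ N : ℕ, N₀ ≤ N →
      ∀ (On : (Fin k → ℤ) → (∀ i, (E (a i) (b i)).Point) → Prop)
        (Bd : (∀ i, (E (a i) (b i)).Point) → ∀ r : ℕ, Finset (Fin k → ZMod r)),
        (∀ P (r : ℕ), r.Prime → r % 4 = 3 → (#(Bd P r) : ℝ) ≤ θ * (r : ℝ) ^ k) →
        (∀ t P (r : ℕ), r.Prime → r % 4 = 3 → On t P → (fun i => (t i : ZMod r)) ∈ Bd P r) →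
        (∀ P P' (r : ℕ) [Fact r.Prime], r % 4 = 3 → (∀ i, InH r (P' i - P i)) → Bd P r = Bd P' r) →
        ∀ [DecidablePred fun t : Fin k → ℤ => ∃ P, On t P],
          (#{t ∈ Bx k N | ∃ P, On t P} : ℝ) ≤ (N : ℝ) ^ ((k : ℝ) - 1 / 2000) := by
  classical
  obtain ⟨hgen, hprimes⟩ := hK
  choose g G hG using hgen
  set gg : ℕ := ∑ i, g i with hgg
  set c : ℝ := 1 - θ with hc
  have hc0 : 0 < c := by rw [hc]; linarith
  have hc1 : c ≤ 1 := by rw [hc]; linarith
  obtain ⟨x₀, hx₀⟩ := hprimes (1 / 1000) (by norm_num)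
  obtain ⟨N₀, hN₀⟩ := numerics gg k c hc0 hc1 x₀
  refine ⟨max N₀ 1, fun N hN On Bd hB1 hB2 hB3 _ => ?_⟩
  have hN1 : 1 ≤ N := le_trans (le_max_right _ _) hN
  have hNpos : (0 : ℝ) < N := by exact_mod_cast hN1
  obtain ⟨x, s, hx, hnum⟩ := hN₀ N (le_trans (le_max_left _ _) hN)
  obtain ⟨M, hM, R, hR, hcard, hlogM⟩ := hx₀ x hx
  obtain ⟨hs, hfin⟩ := hnum M (#R) hM hlogM hcard
  have : NeZero M := ⟨hM.ne'⟩
  -- the class of a point
  let κ := ∀ i : Fin n, Fin (g i) → ZMod M
  have hκ : Fintype.card κ = M ^ gg := by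
    rw [Fintype.card_pi]
    simp only [Fintype.card_pi, ZMod.card, Finset.prod_const, Finset.card_univ, Fintype.card_fin]
    rw [hgg, Finset.prod_pow_eq_pow_sum]
  choose kk hkk using hG
  let cls : (∀ i, (E (a i) (b i)).Point) → κ := fun P i j => (kk i (P i) j : ZMod M)
  have hcls : ∀ P P', cls P = cls P' → ∀ r ∈ R, ∀ i, InH r (P' i - P i) := by
    intro P P' h r hr i
    have h1 : ∀ j, (M : ℤ) ∣ kk i (P' i) j - kk i (P i) j := by
      intro j
      have := congrFun (congrFun h i) j
      rw [← ZMod.intCast_zmod_eq_zero_iff_dvd]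
      push_cast
      exact sub_eq_zero.mpr this.symm
    choose q hq using h1
    have h2 : P' i - P i = M • (∑ j, q j • G i j) := by
      rw [hkk i (P' i), hkk i (P i), ← Finset.sum_sub_distrib, Finset.smul_sum]
      refine Finset.sum_congr rfl fun j _ => ?_
      rw [← sub_smul, hq j, mul_smul, natCast_zsmul]
    rw [h2]
    obtain ⟨-, -, -, h3⟩ := hR r hr
    exact h3 i _
  set bnd : ℝ := (c ^ (2 * s))⁻¹ * ((((#R).choose s : ℕ) : ℝ)⁻¹ + k * (x : ℝ) ^ (2 * s) / N) with hbnd
  have hchoose : (0 : ℝ) < (((#R).choose s : ℕ) : ℝ) := by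
    exact_mod_cast Nat.choose_pos hs
  have hbnd0 : 0 ≤ bnd := by rw [hbnd]; positivity
  -- one class
  let T : κ → Finset (Fin k → ℤ) := fun q => {t ∈ Bx k N | ∃ P, cls P = q ∧ On t P}
  have hT : ∀ q : κ, (#(T q) : ℝ) ≤ bnd * (N : ℝ) ^ k := by
    intro q
    by_cases hex : ∃ P, cls P = q
    · obtain ⟨P, hP⟩ := hex
      have hsieve := es_bound (k := k) R (fun r hr => by
          obtain ⟨-, -, hf, -⟩ := hR r hr
          exact hf.out) (fun r => osc (Bd P r)) (fun r hr => by
          obtain ⟨-, -, hf, -⟩ := hR r hr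
          exact osc_Osc hf.out.pos _) c hc0 (T q) N (Finset.filter_subset _ _) (by
          intro t ht r hr
          obtain ⟨-, P', hP', hOn⟩ := Finset.mem_filter.mp ht
          obtain ⟨-, h4, hf, -⟩ := hR r hr
          have e1 := hB2 t P' r hf.out h4 hOn
          have e2 : Bd P r = Bd P' r := by
            have := hf
            exact hB3 P P' r h4 (hcls P P' (hP.trans hP'.symm) r hr)
          rw [← e2] at e1
          have e3 := hB1 P r hf.out h4
          have hrp : (0 : ℝ) < (r : ℝ) ^ k := by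
            have : (0 : ℝ) < r := by exact_mod_cast hf.out.pos
            positivity
          have e4 : (#(Bd P r) : ℝ) / (r : ℝ) ^ k ≤ θ := by
            rw [div_le_iff₀ hrp]
            exact e3
          show c ≤ osc (Bd P r) t
          unfold osc
          rw [if_pos e1, hc]
          linarith) x s (fun r hr => (hR r hr).1)
      set ch : ℝ := (((#R).choose s : ℕ) : ℝ) with hch
      rw [pow_pred hk hNpos] at hsieve
      have hcs : 0 < c ^ (2 * s) := by positivity
      have e5 : (c ^ s * ch) ^ 2 = c ^ (2 * s) * ch ^ 2 := by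
        rw [mul_pow, ← pow_mul, mul_comm s 2]
      rw [e5] at hsieve
      have e6 : bnd * (N : ℝ) ^ k * (c ^ (2 * s) * ch ^ 2) =
          ch * (N : ℝ) ^ k + ch ^ 2 * (k * (x : ℝ) ^ (2 * s) * ((N : ℝ) ^ k / N)) := by
        rw [hbnd]
        field_simp
      rw [← e6] at hsieve
      exact le_of_mul_le_mul_right hsieve (by positivity)
    · have : T q = ∅ := by
        rw [Finset.filter_eq_empty_iff]
        rintro t - ⟨P, hP, -⟩
        exact hex ⟨P, hP⟩
      rw [this]
      simp only [Finset.card_empty, Nat.cast_zero]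
      positivity
  have hsub : ({t ∈ Bx k N | ∃ P, On t P} : Finset (Fin k → ℤ)) ⊆
      (Finset.univ : Finset κ).biUnion T := by
    intro t ht
    obtain ⟨h1, P, hP⟩ := Finset.mem_filter.mp ht
    rw [Finset.mem_biUnion]
    exact ⟨cls P, Finset.mem_univ _, Finset.mem_filter.mpr ⟨h1, P, rfl, hP⟩⟩
  have hle : (#{t ∈ Bx k N | ∃ P, On t P} : ℝ) ≤ ∑ q : κ, (#(T q) : ℝ) := by
    have h1 := (Finset.card_le_card hsub).trans Finset.card_biUnion_le
    exact_mod_cast h1
  calc (#{t ∈ Bx k N | ∃ P, On t P} : ℝ) ≤ ∑ q : κ, (#(T q) : ℝ) := hle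
    _ ≤ ∑ _q : κ, bnd * (N : ℝ) ^ k := Finset.sum_le_sum fun q _ => hT q
    _ = ((M : ℝ) ^ gg * bnd) * (N : ℝ) ^ k := by
        rw [Finset.sum_const, Finset.card_univ, hκ, nsmul_eq_mul]
        push_cast
        ring
    _ ≤ (N : ℝ) ^ (-(1 / 2000) : ℝ) * (N : ℝ) ^ k := by
        apply mul_le_mul_of_nonneg_right hfin (by positivity)
    _ = (N : ℝ) ^ ((k : ℝ) - 1 / 2000) := by
        rw [← Real.rpow_natCast (N : ℝ) k, ← Real.rpow_add hNpos]
        congr 1
        ring

end Pool.Agent.Helper14.PS
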