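import Pool.Agent.Helper14.PS.Classes

/-!
# PS-Pencil2: pencils and quadratic twists

`pencil2_power`: for the covers `z ^ m + ∑ h j z ^ j + ∑ t i (1 + g i ^ 2) z ^ i = 0`, uniformly in `h` and `g`, in every
box of side `N ≥ N₀`, whatever its position, at most `N ^ (k - 1/2000)` of the covers have a rational point.
For `g = 0` these are the pencils of Helper11/Cov/Pencil.lean, for `m = 2` and `h = 0` the quadratic twists
`w ^ 2 = D (1 + g ^ 2)`.
-/

open AlgebraicGeometry CategoryTheory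

set_option autoImplicit false

namespace Pool.Agent.Helper14.PS

open WeierstrassCurve Finset Pool.Agent.Helper11.Cov

/-- `(P, z)` is a rational point of the cover
`z ^ m + ∑ j, h j * z ^ j + ∑ i, t i * (1 + g i ^ 2) * z ^ i = 0`. -/
def OnPencil2 {n : ℕ} (a b : Fin n → ℤ) {m k : ℕ} (h : Fin m → MvPolynomial (Fin n × Fin 3) ℤ)
    (g : Fin k → MvPolynomial (Fin n × Fin 3) ℤ)
    (t : Fin k → ℤ) (P : ∀ i, (E (a i) (b i)).Point) (z : ℚ) : Prop :=
  z ^ m + ∑ j, MvPolynomial.aeval (fun p : Fin n × Fin 3 => coo p.2 (P p.1)) (h j) * z ^ (j : ℕ) +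
    ∑ i, (t i : ℚ) * (1 + (MvPolynomial.aeval (fun p : Fin n × Fin 3 => coo p.2 (P p.1)) (g i)) ^ 2) *
      z ^ (i : ℕ) = 0

/-- The coefficients with the parameters absorbed. -/
noncomputable def absorb {σ : Type} {m k : ℕ} (h : Fin m → MvPolynomial σ ℤ)
    (g : Fin k → MvPolynomial σ ℤ) (t : Fin k → ℤ) (j : Fin m) : MvPolynomial σ ℤ :=
  h j + if hj : (j : ℕ) < k then MvPolynomial.C (t ⟨j, hj⟩) * (1 + g ⟨j, hj⟩ ^ 2) else 0

theorem sum_extend {S : Type*} [CommRing S] {m k : ℕ} (hkm : k ≤ m) (φ : Fin k → S) (z : S) :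
    ∑ j : Fin m, (if hj : (j : ℕ) < k then φ ⟨j, hj⟩ * z ^ (j : ℕ) else 0) =
      ∑ i, φ i * z ^ (i : ℕ) := by
  have h1 := Fin.sum_univ_eq_sum_range
    (fun j : ℕ => if hj : j < k then φ ⟨j, hj⟩ * z ^ j else 0) m
  have h2 := Fin.sum_univ_eq_sum_range
    (fun j : ℕ => if hj : j < k then φ ⟨j, hj⟩ * z ^ j else 0) k
  rw [h1]
  have h3 : ∑ i, φ i * z ^ (i : ℕ) =
      ∑ i : Fin k, (if hj : (i : ℕ) < k then φ ⟨i, hj⟩ * z ^ (i : ℕ) else 0) := by
    refine Finset.sum_congr rfl fun i _ => ?_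
    rw [dif_pos i.2]
  rw [h3, h2]
  symm
  refine Finset.sum_subset (Finset.range_subset_range.mpr hkm) fun j _ hj => ?_
  rw [Finset.mem_range] at hj
  rw [dif_neg hj]

theorem sum_absorb {σ : Type} {S : Type*} [CommRing S] {m k : ℕ} (hkm : k ≤ m)
    (h : Fin m → MvPolynomial σ ℤ) (g : Fin k → MvPolynomial σ ℤ) (t : Fin k → ℤ)
    (f : σ → S) (z : S) :
    ∑ j, MvPolynomial.aeval f (absorb h g t j) * z ^ (j : ℕ) =
      ∑ j, MvPolynomial.aeval f (h j) * z ^ (j : ℕ) +
        ∑ i, (t i : S) * (1 + (MvPolynomial.aeval f (g i)) ^ 2) * z ^ (i : ℕ) := by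
  rw [← sum_extend hkm (fun i => (t i : S) * (1 + (MvPolynomial.aeval f (g i)) ^ 2)) z,
    ← Finset.sum_add_distrib]
  refine Finset.sum_congr rfl fun j _ => ?_
  unfold absorb
  rw [map_add, add_mul]
  congr 1
  by_cases hj : (j : ℕ) < k
  · rw [dif_pos hj, dif_pos hj, map_mul, map_add, map_one, map_pow, MvPolynomial.aeval_C]
    rfl
  · rw [dif_neg hj, dif_neg hj, map_zero, zero_mul]

/-- Absorbing the parameters. -/
theorem onPencil2_iff {n : ℕ} {a b : Fin n → ℤ} {m k : ℕ} (hkm : k ≤ m)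
    {h : Fin m → MvPolynomial (Fin n × Fin 3) ℤ} {g : Fin k → MvPolynomial (Fin n × Fin 3) ℤ}
    {t : Fin k → ℤ} {P : ∀ i, (E (a i) (b i)).Point} {z : ℚ} :
    OnPencil2 a b h g t P z ↔ OnPencil a b (absorb h g t) (Fin.elim0 : Fin 0 → ℤ) P z := by
  unfold OnPencil2 OnPencil
  rw [sum_absorb hkm, Finset.univ_eq_empty (α := Fin 0), Finset.sum_empty, add_zero, add_assoc]

/-- `1 + v²` does not vanish modulo a prime `r = 3 mod 4`. -/
theorem one_add_sq_ne {r : ℕ} [Fact r.Prime] (h4 : r % 4 = 3) (v : ZMod r) : 1 + v ^ 2 ≠ 0 := by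
  intro h0
  have : IsSquare (-1 : ZMod r) := ⟨v, by linear_combination -h0⟩
  exact (ZMod.exists_sq_eq_neg_one_iff.mp this) h4

/-- **Power saving for pencils with weights**, in every box of side `N ≥ N₀`. -/
theorem pencil2_power {n : ℕ} {a b : Fin n → ℤ} (hK : Key5 a b) {m k : ℕ} (hm : 2 ≤ m)
    (hk : k = min (m - 1) 2) : ∃ N₀ : ℕ, ∀ N : ℕ, N₀ ≤ N →
      ∀ (h : Fin m → MvPolynomial (Fin n × Fin 3) ℤ) (g : Fin k → MvPolynomial (Fin n × Fin 3) ℤ)
        (v : Fin k → ℤ), (Nat.card {t : Fin k → ℤ // (∃ P z, OnPencil2 a b h g t P z) ∧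
          ∀ i, v i ≤ t i ∧ t i < v i + N} : ℝ) ≤ (N : ℝ) ^ ((k : ℝ) - 1 / 2000) := by
  classical
  obtain ⟨θ, hθ⟩ : ∃ θ : ℝ, θ = 1 - 2 / (3 * m) := ⟨_, rfl⟩
  have hm' : (2:ℝ) ≤ m := by exact_mod_cast hm
  have hθ0 : 0 ≤ θ := by
    rw [hθ]
    have : 2 / (3 * (m:ℝ)) < 1 := by rw [div_lt_one (by positivity)]; linarith
    linarith
  have hθ1 : θ < 1 := by
    rw [hθ]
    have : 0 < 2 / (3 * (m:ℝ)) := by positivity
    linarith
  obtain ⟨N₀, hN₀⟩ := family_bound hK (k := k) (by omega) hθ0 hθ1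
  refine ⟨N₀, fun N hN h g v => ?_⟩
  choose Ac Bc Dc hrep using fun (i : Fin n) (Q : (E (a i) (b i)).Point) => exists_irep Q
  -- the reductions of the functions
  let fP : (∀ i, (E (a i) (b i)).Point) → ∀ l : ℕ, [Fact l.Prime] → Fin n × Fin 3 → ZMod l :=
    fun P l _ p =>
      cooR (Ac p.1 (P p.1) : ZMod l) (Bc p.1 (P p.1)) (Dc p.1 (P p.1)) p.2
  let Bd : (∀ i, (E (a i) (b i)).Point) → ∀ r : ℕ, Finset (Fin k → ZMod r) := fun P r =>
    if hr : r.Prime then
      haveI : Fact r.Prime := ⟨hr⟩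
      ({t | ∃ Z, Z ^ m + ∑ j, MvPolynomial.aeval (fP P r) (h j) * Z ^ (j : ℕ) +
        ∑ i, (((v i : ℤ) : ZMod r) + t i) * (1 + (MvPolynomial.aeval (fP P r) (g i)) ^ 2) *
          Z ^ (i : ℕ) = 0} : Finset (Fin k → ZMod r))
    else ∅
  let On : (Fin k → ℤ) → (∀ i, (E (a i) (b i)).Point) → Prop := fun t P =>
    ∃ z, OnPencil2 a b h g (fun i => v i + t i) P z
  have key := hN₀ N hN On Bd ?_ ?_ ?_
  · have h2 : Nat.card {t : Fin k → ℤ // (∃ P z, OnPencil2 a b h g t P z) ∧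
        ∀ i, v i ≤ t i ∧ t i < v i + N} ≤ #{t ∈ Bx k N | ∃ P, On t P} := by
      have h3 := Nat.card_le_card_of_injective
        (fun t : {t : Fin k → ℤ // (∃ P z, OnPencil2 a b h g t P z) ∧
            ∀ i, v i ≤ t i ∧ t i < v i + N} =>
          (⟨fun i => t.1 i - v i, by
            rw [Finset.mem_filter, mem_Bx]
            refine ⟨fun i => ?_, ?_⟩
            · have := t.2.2 i
              omega
            · obtain ⟨P, z, hz⟩ := t.2.1
              refine ⟨P, z, ?_⟩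
              have e1 : (fun i => v i + (t.1 i - v i)) = t.1 := by
                funext i
                ring
              rw [e1]
              exact hz⟩ : ↥({t ∈ Bx k N | ∃ P, On t P})))
        (fun t t' htt => by
          apply Subtype.ext
          funext i
          have h4 := congrFun (congrArg Subtype.val htt) i
          simp only at h4
          omega)
      refine h3.trans (le_of_eq ?_)
      rw [Nat.card_eq_fintype_card, Fintype.card_coe]
    exact le_trans (by exact_mod_cast h2) key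
  · -- the number of residues
    intro P r hr h4
    have hF : Fact r.Prime := ⟨hr⟩
    simp only [Bd, dif_pos hr]
    have h3 : 3 ≤ r := by omega
    have h2 : (2 : ZMod r) ≠ 0 := by
      intro h0
      have : ((2 : ℕ) : ZMod r) = 0 := by exact_mod_cast h0
      rw [ZMod.natCast_eq_zero_iff] at this
      have := Nat.le_of_dvd (by norm_num) this
      omega
    have := count_param (F := ZMod r) h2 (by rw [ZMod.card]; exact h3) hm hk
      (fun j => MvPolynomial.aeval (fP P r) (h j))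
      {t | ∃ Z, Z ^ m + ∑ j, MvPolynomial.aeval (fP P r) (h j) * Z ^ (j : ℕ) +
      ∑ i, t i * Z ^ (i : ℕ) = 0} (fun t ht => (Finset.mem_filter.mp ht).2)
    have h5 := Finset.card_le_card_of_injOn
      (s := ({t | ∃ Z, Z ^ m + ∑ j, MvPolynomial.aeval (fP P r) (h j) * Z ^ (j : ℕ) +
        ∑ i, (((v i : ℤ) : ZMod r) + t i) * (1 + (MvPolynomial.aeval (fP P r) (g i)) ^ 2) *
          Z ^ (i : ℕ) = 0} : Finset (Fin k → ZMod r)))
      (t := ({t | ∃ Z, Z ^ m + ∑ j, MvPolynomial.aeval (fP P r) (h j) * Z ^ (j : ℕ) +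
      ∑ i, t i * Z ^ (i : ℕ) = 0} : Finset (Fin k → ZMod r)))
      (fun t i => (((v i : ℤ) : ZMod r) + t i) *
        (1 + (MvPolynomial.aeval (fP P r) (g i)) ^ 2)) (by
        intro t ht
        rw [Finset.mem_coe, Finset.mem_filter] at ht ⊢
        exact ⟨Finset.mem_univ _, ht.2⟩) (by
        intro t _ t' _ htt
        funext i
        have := congrFun htt i
        simp only at this
        have := mul_right_cancel₀ (one_add_sq_ne h4 _) this
        exact add_left_cancel this)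
    have h6 := (Nat.cast_le (α := ℝ)).mpr this
    have h7 : 2 ≤ 3 * m := by omega
    push_cast [h7] at h6
    rw [ZMod.card] at h6
    have hm0 : (0:ℝ) < 3 * m := by positivity
    have h8 : θ * (r : ℝ) ^ k = ((3 * m - 2 : ℝ) * (r : ℝ) ^ k) / (3 * m) := by
      rw [hθ]; field_simp
    rw [h8, le_div_iff₀ hm0]
    have h9 := (Nat.cast_le (α := ℝ)).mpr h5
    nlinarith
  · -- reduction
    rintro t P r hr h4 ⟨z, hc⟩
    have hF : Fact r.Prime := ⟨hr⟩
    simp only [Bd, dif_pos hr]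
    rw [Finset.mem_filter]
    refine ⟨Finset.mem_univ _, ?_⟩
    rw [onPencil2_iff (by omega)] at hc
    unfold OnPencil at hc
    have e1 : (fun p : Fin n × Fin 3 => coo p.2 (P p.1)) = fun p : Fin n × Fin 3 =>
        cooR (Ac p.1 (P p.1) : ℚ) (Bc p.1 (P p.1)) (Dc p.1 (P p.1)) p.2 := by
      funext p
      exact coo_irep (hrep p.1 (P p.1)) p.2
    rw [e1] at hc
    obtain ⟨Z, hZ⟩ := reduce_eq (l := r) h4 (A := fun i => Ac i (P i)) (B := fun i => Bc i (P i))
      (D := fun i => Dc i (P i)) (fun i => (hrep i (P i)).1) (by omega) _ _ hc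
    refine ⟨Z, ?_⟩
    rw [sum_absorb (by omega), Finset.univ_eq_empty (α := Fin 0), Finset.sum_empty, add_zero,
      ← add_assoc] at hZ
    rw [← hZ]
    congr 1
    refine Finset.sum_congr rfl fun i _ => ?_
    push_cast
    rfl
  · -- classes
    intro P P' r hF h4 hPP'
    have hr : r.Prime := hF.out
    simp only [Bd, dif_pos hr]
    have e2 : fP P' r = fP P r := by
      funext p
      obtain ⟨u, hu, hA, hB, hD⟩ := (hrep p.1 (P p.1)).cong (hrep p.1 (P' p.1)) (hPP' p.1)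
      simp only [fP]
      rw [hA, hB, hD, cooR_scale hu]
    rw [e2]

/-- If a variety dominating the cover has dense rational points, the cover has a rational point. -/
theorem exists_onPencil2 {n : ℕ} {a b : Fin n → ℤ} (hg : ∀ i, Good (a i) (b i)) {m k : ℕ}
    (hkm : k ≤ m) {h : Fin m → MvPolynomial (Fin n × Fin 3) ℤ}
    {g : Fin k → MvPolynomial (Fin n × Fin 3) ℤ} {t : Fin k → ℤ} {V : Scheme.{0}} [IsIntegral V]
    (f : V ⟶ Spec (CommRingCat.of ℚ)) (x y : Fin n → V.functionField) (z : V.functionField)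
    (hxy : ∀ i, y i ^ 2 = x i ^ 3 + (a i : V.functionField) * x i + (b i : V.functionField))
    (hz : z ^ m + ∑ j, MvPolynomial.aeval (fun p : Fin n × Fin 3 =>
      ![1, x p.1, y p.1] p.2 / (1 + x p.1 ^ 2)) (h j) * z ^ (j : ℕ) +
      ∑ i, (t i : V.functionField) * (1 + (MvPolynomial.aeval (fun p : Fin n × Fin 3 =>
        ![1, x p.1, y p.1] p.2 / (1 + x p.1 ^ 2)) (g i)) ^ 2) * z ^ (i : ℕ) = 0)
    (hdense : Dense (Pool.Agent.Helper11.rationalPoints f)) : ∃ P z, OnPencil2 a b h g t P z := by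
  obtain ⟨P, z', hP⟩ := exists_onPencil hg (h := absorb h g t) (t := (Fin.elim0 : Fin 0 → ℤ)) f x y z
    hxy (by
      rw [sum_absorb hkm, Finset.univ_eq_empty (α := Fin 0), Finset.sum_empty, add_zero,
        ← add_assoc]
      exact hz) hdense
  exact ⟨P, z', (onPencil2_iff hkm).mpr hP⟩

end Pool.Agent.Helper14.PS
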