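import Mathlib

/-!
# PS-Modulus: a small common multiple

PROOF.  `w = ⌊2 x ^ (80/81)⌋`, `M = ∏ p ≤ w prime, p ^ Nat.log p (x + 1)` (compare the proof of `smooth_primes_gen` in
Pool/Agent/Helper52/SmoothPrimes/General.lean, part `the modulus`, from which everything can be copied).  A prime factor
`p` of `r + 1` is `q ≤ x ^ (1/80) ≤ w`, or `p q ∣ r + 1`, `p ≤ (x + 1) / q ≤ w`.  `log M ≤ w log (x + 1) ≤ x ^ (1 - 1/82)` for large
`x`, as `80/81 < 81/82`.
-/

set_option autoImplicit false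

namespace Pool.Agent.Helper14.PS

open Finset Filter

private theorem Modulus_asym : ∀ᶠ x : ℝ in atTop,
    2 * x ^ (80 / 81 : ℝ) * Real.log (x + 1) ≤ x ^ (1 - 1 / 82 : ℝ) := by
  have h := (isLittleO_log_rpow_atTop (show (0 : ℝ) < 1 / 6642 by norm_num)).bound
    (show (0 : ℝ) < 1 / 4 by norm_num)
  filter_upwards [h, eventually_ge_atTop 2] with x hx hx2
  have hx0 : (0 : ℝ) < x := by linarith
  rw [Real.norm_of_nonneg (Real.log_nonneg (by linarith)),
    Real.norm_of_nonneg (Real.rpow_nonneg hx0.le _)] at hx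
  have h2 : Real.log (x + 1) ≤ 2 * Real.log x := by
    have h3 : Real.log (x + 1) ≤ Real.log (x ^ 2) := by
      apply Real.log_le_log (by linarith)
      nlinarith
    rw [Real.log_pow] at h3
    exact_mod_cast h3
  have h4 : x ^ (1 - 1 / 82 : ℝ) = x ^ (80 / 81 : ℝ) * x ^ (1 / 6642 : ℝ) := by
    rw [← Real.rpow_add hx0]
    norm_num
  rw [h4]
  have h5 : 0 < x ^ (80 / 81 : ℝ) := Real.rpow_pos_of_pos hx0 _
  calc 2 * x ^ (80 / 81 : ℝ) * Real.log (x + 1)
      ≤ 2 * x ^ (80 / 81 : ℝ) * (2 * (1 / 4 * x ^ (1 / 6642 : ℝ))) := by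
        apply mul_le_mul_of_nonneg_left _ (by positivity)
        linarith
    _ = x ^ (80 / 81 : ℝ) * x ^ (1 / 6642 : ℝ) := by ring

theorem exists_modulus : ∃ x₀ : ℕ, ∀ x : ℕ, x₀ ≤ x → ∃ M : ℕ, 0 < M ∧
    Real.log M ≤ (x : ℝ) ^ (1 - 1 / 82 : ℝ) ∧ ∀ r q : ℕ, r ≤ x → q.Prime →
      (x : ℝ) ^ (1 / 81 : ℝ) < q → (q : ℝ) ≤ (x : ℝ) ^ (1 / 80 : ℝ) → q ∣ r + 1 → r + 1 ∣ M := by
  obtain ⟨X0, hX0⟩ := eventually_atTop.1 Modulus_asym
  refine ⟨max ⌈X0⌉₊ 1, fun x hx => ?_⟩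
  have hx1 : 1 ≤ x := le_trans (le_max_right _ _) hx
  have hx1' : (1 : ℝ) ≤ x := by exact_mod_cast hx1
  have hx0 : (0 : ℝ) < x := by linarith
  have hX : X0 ≤ (x : ℝ) := (Nat.le_ceil X0).trans (by exact_mod_cast (le_max_left _ _).trans hx)
  have hasym := hX0 x hX
  set w : ℕ := ⌊2 * (x : ℝ) ^ (80 / 81 : ℝ)⌋₊ with hw
  have hw1 : (w : ℝ) ≤ 2 * (x : ℝ) ^ (80 / 81 : ℝ) := Nat.floor_le (by positivity)
  set M : ℕ := ∏ p ∈ (range (w + 1)).filter Nat.Prime, p ^ Nat.log p (x + 1) with hM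
  have hM0 : 0 < M := by
    rw [hM]
    exact prod_pos fun p hp => pow_pos (mem_filter.1 hp).2.pos _
  refine ⟨M, hM0, ?_, ?_⟩
  · have h1 : Real.log (M : ℝ) = ∑ p ∈ (range (w + 1)).filter Nat.Prime,
        Real.log ((p : ℝ) ^ Nat.log p (x + 1)) := by
      rw [hM, Nat.cast_prod, Real.log_prod]
      · exact sum_congr rfl fun p _ => by rw [Nat.cast_pow]
      · intro p hp
        have := (mem_filter.1 hp).2.pos
        positivity
    have h2 : ∀ p ∈ (range (w + 1)).filter Nat.Prime,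
        Real.log ((p : ℝ) ^ Nat.log p (x + 1)) ≤ Real.log ((x : ℝ) + 1) := by
      intro p hp
      have hp0 := (mem_filter.1 hp).2.pos
      apply Real.log_le_log (by positivity)
      exact_mod_cast Nat.pow_log_le_self p (by omega)
    have h3 : ((range (w + 1)).filter Nat.Prime).card ≤ w := by
      have : (range (w + 1)).filter Nat.Prime ⊆ Icc 1 w := by
        intro p hp
        rw [mem_filter, mem_range] at hp
        rw [mem_Icc]
        exact ⟨hp.2.pos, by omega⟩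
      simpa using card_le_card this
    have hl0 : 0 ≤ Real.log ((x : ℝ) + 1) := Real.log_nonneg (by linarith)
    calc Real.log (M : ℝ) ≤ ∑ p ∈ (range (w + 1)).filter Nat.Prime, Real.log ((x : ℝ) + 1) := by
          rw [h1]
          exact sum_le_sum h2
      _ = (((range (w + 1)).filter Nat.Prime).card : ℝ) * Real.log ((x : ℝ) + 1) := by
          rw [sum_const, nsmul_eq_mul]
      _ ≤ (2 * (x : ℝ) ^ (80 / 81 : ℝ)) * Real.log ((x : ℝ) + 1) := by
          apply mul_le_mul_of_nonneg_right _ hl0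
          exact le_trans (by exact_mod_cast h3) hw1
      _ ≤ _ := hasym
  · intro r q hr hq hq1 hq2 hqr
    rw [Nat.dvd_iff_prime_pow_dvd_dvd]
    intro p k hp hk
    rcases Nat.eq_zero_or_pos k with rfl | hk0
    · simp
    have hpr : p ∣ r + 1 := (dvd_pow_self p (by omega)).trans hk
    have hpw : p ≤ w := by
      apply Nat.le_floor
      by_cases hpq : p = q
      · rw [hpq]
        have h1 : (x : ℝ) ^ (1 / 80 : ℝ) ≤ (x : ℝ) ^ (80 / 81 : ℝ) :=
          Real.rpow_le_rpow_of_exponent_le hx1' (by norm_num)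
        have h2 : 0 < (x : ℝ) ^ (80 / 81 : ℝ) := Real.rpow_pos_of_pos hx0 _
        linarith
      · have hc : Nat.Coprime p q := (Nat.coprime_primes hp hq).2 hpq
        have h1 : p * q ∣ r + 1 := hc.mul_dvd_of_dvd_of_dvd hpr hqr
        have h2 : p * q ≤ x + 1 := (Nat.le_of_dvd (by omega) h1).trans (by omega)
        have h3 : (p : ℝ) * q ≤ 2 * x := by
          have : (p : ℝ) * q ≤ x + 1 := by exact_mod_cast h2
          linarith
        have h4 : 0 < (x : ℝ) ^ (1 / 81 : ℝ) := Real.rpow_pos_of_pos hx0 _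
        have h5 : (x : ℝ) = (x : ℝ) ^ (80 / 81 : ℝ) * (x : ℝ) ^ (1 / 81 : ℝ) := by
          rw [← Real.rpow_add hx0]
          norm_num
        have h6 : (p : ℝ) * (x : ℝ) ^ (1 / 81 : ℝ) ≤
            (2 * (x : ℝ) ^ (80 / 81 : ℝ)) * (x : ℝ) ^ (1 / 81 : ℝ) := by
          calc (p : ℝ) * (x : ℝ) ^ (1 / 81 : ℝ) ≤ (p : ℝ) * q :=
                mul_le_mul_of_nonneg_left hq1.le (by positivity)
            _ ≤ 2 * x := h3
            _ = (2 * (x : ℝ) ^ (80 / 81 : ℝ)) * (x : ℝ) ^ (1 / 81 : ℝ) := by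
                rw [mul_assoc, ← h5]
        exact le_of_mul_le_mul_right h6 h4
    have hpk : p ^ k ≤ x + 1 := (Nat.le_of_dvd (by omega) hk).trans (by omega)
    have hkl : k ≤ Nat.log p (x + 1) := Nat.le_log_of_pow_le hp.one_lt hpk
    refine (pow_dvd_pow p hkl).trans ?_
    rw [hM]
    exact dvd_prod_of_mem (fun p => p ^ Nat.log p (x + 1))
      (mem_filter.2 ⟨mem_range.2 (by omega), hp⟩)

end Pool.Agent.Helper14.PS
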