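import Pool.Agent.Helper14.PS.Classes
import Pool.Agent.Helper11.Cov.Main

/-!
# PS-Covers: complete linear systems

`covers_power`: in every box of side `N ≥ N₀`, whatever its position, at most `N ^ (#S - 1/2000)` of the
covers `V_c` have a rational point.
-/

set_option autoImplicit false

namespace Pool.Agent.Helper14.PS

open WeierstrassCurve Finset Pool.Agent.Helper11.Cov

section
variable {n : ℕ} {a b : Fin n → ℤ} {m : ℕ} {d : Fin n → ℕ} {S : Finset (ℕ × (Fin n → ℕ × ℕ))}

/-- One half of the invariance of the set of bad residues under scaling. -/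
theorem badSet_mono (hS : Adm m d S) {l : ℕ} [Fact l.Prime] {v v' : S → ZMod l} {u : ZMod l}
    (hv : ∀ s : S, v' s = u ^ s.1.1 * v s) {c : S → ZMod l} (hc : c ∈ BadSet m S l v) :
    c ∈ BadSet m S l v' := by
  rw [mem_BadSet] at hc ⊢
  obtain ⟨Z, hZ⟩ := hc
  refine ⟨u * Z, ?_⟩
  have e : (u * Z) ^ m + ∑ s : S, c s * v' s * (u * Z) ^ (m - s.1.1) =
      u ^ m * (Z ^ m + ∑ s : S, c s * v s * Z ^ (m - s.1.1)) := by
    rw [mul_add, mul_pow, Finset.mul_sum]
    congr 1
    refine Finset.sum_congr rfl fun s _ => ?_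
    have hs := hS.1 s.1 s.2
    rw [hv s]
    have : u ^ m = u ^ s.1.1 * u ^ (m - s.1.1) := by
      rw [← pow_add]; congr 1; omega
    rw [this, mul_pow]
    ring
  rw [e, hZ, mul_zero]

theorem badSet_scale (hS : Adm m d S) {l : ℕ} [Fact l.Prime] {v v' : S → ZMod l} {u : ZMod l}
    (hu : u ≠ 0) (hv : ∀ s : S, v' s = u ^ s.1.1 * v s) :
    BadSet m S l v = BadSet m S l v' := by
  ext c
  constructor
  · exact badSet_mono hS hv
  · refine badSet_mono hS (u := u⁻¹) fun s => ?_
    rw [hv s, ← mul_assoc, ← mul_pow, inv_mul_cancel₀ hu, one_pow, one_mul]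

/-- The number of bad residues. -/
theorem card_badSet (hm : 2 ≤ m) (hS : Adm m d S) {l : ℕ} [Fact l.Prime] (hl : 3 ≤ l)
    {P : ∀ i, (E (a i) (b i)).Point} {A B D : Fin n → ℤ} (hrep : ∀ i, IRep (P i) (A i) (B i) (D i)) :
    (#(BadSet m S l (vec d S (fun i => (A i : ZMod l)) (fun i => (B i : ZMod l))
      (fun i => (D i : ZMod l)))) : ℝ) ≤ (1 - 2 / (3 * m)) * (l : ℝ) ^ Fintype.card S := by
  classical
  have h2 : (2 : ZMod l) ≠ 0 := by
    intro h0
    have : ((2 : ℕ) : ZMod l) = 0 := by exact_mod_cast h0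
    rw [ZMod.natCast_eq_zero_iff] at this
    have := Nat.le_of_dvd (by norm_num) this
    omega
  have hm' : (2:ℝ) ≤ m := by exact_mod_cast hm
  obtain ⟨s₀, hs₀, hv₀⟩ := vec_ne hS (l := l) hrep (Or.inl (rfl : m = m))
  set vv := vec d S (fun i => (A i : ZMod l)) (fun i => (B i : ZMod l)) (fun i => (D i : ZMod l))
    with hvv
  have := count_bad' (F := ZMod l) (ι := S) h2 (by rw [ZMod.card]; exact hl) hm
    (fun s => s.1.1) (fun s => ⟨(hS.1 s.1 s.2).1, (hS.1 s.1 s.2).2.1⟩) vv s₀ hs₀ hv₀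
    (fun h2m => by
      obtain ⟨s₁, hs₁, hv₁⟩ := vec_ne hS (l := l) hrep
        (k := m - 1) (Or.inr ⟨by omega, h2m⟩)
      exact ⟨s₁, by omega, hv₁⟩) (BadSet m S l vv) (fun c hc => mem_BadSet.mp hc)
  have h5 : (3 * m : ℝ) * #(BadSet m S l vv) ≤ (3 * m - 2 : ℝ) * (l : ℝ) ^ Fintype.card S := by
    have h6 := (Nat.cast_le (α := ℝ)).mpr this
    have h7 : 2 ≤ 3 * m := by omega
    push_cast [h7] at h6
    rw [Fintype.card_fun, ZMod.card] at h6
    push_cast at h6
    exact h6
  have hm0 : (0:ℝ) < 3 * m := by positivity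
  have h8 : (1 - 2 / (3 * m) : ℝ) * (l : ℝ) ^ Fintype.card S =
      ((3 * m - 2 : ℝ) * (l : ℝ) ^ Fintype.card S) / (3 * m) := by
    field_simp
  rw [h8, le_div_iff₀ hm0]
  linarith

/-- **Power saving for complete linear systems**, in every box of side `N ≥ N₀`. -/
theorem covers_power (hK : Key5 a b) (hm : 2 ≤ m) (hS : Adm m d S) : ∃ N₀ : ℕ, ∀ N : ℕ, N₀ ≤ N →
    ∀ v : S → ℤ, (Nat.card {c : S → ℤ // (∃ P z, OnCover a b m d S c P z) ∧
      ∀ s, v s ≤ c s ∧ c s < v s + N} : ℝ) ≤ (N : ℝ) ^ ((#S : ℝ) - 1 / 2000) := by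
  classical
  have hm' : (2:ℝ) ≤ m := by exact_mod_cast hm
  obtain ⟨s₀, hs₀, -⟩ := hS.2 m (Or.inl rfl) ∅
  have hk : 1 ≤ Fintype.card S := by
    rw [Fintype.card_coe]
    exact Finset.card_pos.mpr ⟨s₀, hs₀⟩
  have hθ : (0:ℝ) < 2 / (3 * m) ∧ 2 / (3 * (m:ℝ)) < 1 :=
    ⟨by positivity, by rw [div_lt_one (by positivity)]; linarith⟩
  obtain ⟨N₀, hN₀⟩ := family_bound hK hk (θ := 1 - 2 / (3 * m)) (by linarith [hθ.2])
    (by linarith [hθ.1])
  refine ⟨N₀, fun N hN v => ?_⟩
  choose Ac Bc Dc hrep using fun (i : Fin n) (Q : (E (a i) (b i)).Point) => exists_irep Q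
  let e : S ≃ Fin (Fintype.card S) := Fintype.equivFin S
  let vP : (∀ i, (E (a i) (b i)).Point) → ∀ l : ℕ, S → ZMod l := fun P l =>
    vec d S (fun i => (Ac i (P i) : ZMod l)) (fun i => (Bc i (P i) : ZMod l))
      (fun i => (Dc i (P i) : ZMod l))
  let Bd : (∀ i, (E (a i) (b i)).Point) → ∀ r : ℕ, Finset (Fin (Fintype.card S) → ZMod r) :=
    fun P r => if hr : r.Prime then
      haveI : Fact r.Prime := ⟨hr⟩
      Finset.univ.filter (fun t => (fun s : S => ((v s : ℤ) : ZMod r) + t (e s)) ∈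
        BadSet m S r (vP P r)) else ∅
  let On : (Fin (Fintype.card S) → ℤ) → (∀ i, (E (a i) (b i)).Point) → Prop := fun t P =>
    ∃ z, OnCover a b m d S (fun s => v s + t (e s)) P z
  have h1 := hN₀ N hN On Bd ?_ ?_ ?_
  · have h2 : Nat.card {c : S → ℤ // (∃ P z, OnCover a b m d S c P z) ∧
        ∀ s, v s ≤ c s ∧ c s < v s + N} ≤ #{t ∈ Bx (Fintype.card S) N | ∃ P, On t P} := by
      have h3 := Nat.card_le_card_of_injective
        (fun c : {c : S → ℤ // (∃ P z, OnCover a b m d S c P z) ∧ ∀ s, v s ≤ c s ∧ c s < v s + N} =>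
          (⟨fun i => c.1 (e.symm i) - v (e.symm i), by
            rw [Finset.mem_filter, mem_Bx]
            refine ⟨fun i => ?_, ?_⟩
            · have := c.2.2 (e.symm i)
              omega
            · obtain ⟨P, z, hz⟩ := c.2.1
              refine ⟨P, z, ?_⟩
              have e1 : (fun s => v s + (c.1 (e.symm (e s)) - v (e.symm (e s)))) = c.1 := by
                funext s
                rw [e.symm_apply_apply]
                ring
              rw [e1]
              exact hz⟩ : ↥({t ∈ Bx (Fintype.card S) N | ∃ P, On t P})))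
        (fun c c' hcc => by
          apply Subtype.ext
          funext s
          have h4 := congrFun (congrArg Subtype.val hcc) (e s)
          simp only [e.symm_apply_apply] at h4
          omega)
      refine h3.trans (le_of_eq ?_)
      rw [Nat.card_eq_fintype_card, Fintype.card_coe]
    have h5 : ((Fintype.card S : ℕ) : ℝ) = (#S : ℝ) := by rw [Fintype.card_coe]
    rw [h5] at h1
    exact le_trans (by exact_mod_cast h2) h1
  · intro P r hr h4
    have hF : Fact r.Prime := ⟨hr⟩
    simp only [Bd, dif_pos hr]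
    refine le_trans ?_ (card_badSet hm hS (l := r) (by omega) (fun i => hrep i (P i)))
    have h6 : #(Finset.univ.filter (fun t : Fin (Fintype.card S) → ZMod r =>
        (fun s : S => ((v s : ℤ) : ZMod r) + t (e s)) ∈ BadSet m S r (vP P r))) ≤
        #(BadSet m S r (vP P r)) := by
      refine Finset.card_le_card_of_injOn (fun t => fun s : S => ((v s : ℤ) : ZMod r) + t (e s)) ?_ ?_
      · intro t ht
        rw [Finset.mem_coe, Finset.mem_filter] at ht
        exact ht.2
      · intro t _ t' _ htt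
        funext i
        have := congrFun htt (e.symm i)
        simp only [e.apply_symm_apply] at this
        exact add_left_cancel this
    exact_mod_cast h6
  · intro t P r hr h4 hOn
    have hF : Fact r.Prime := ⟨hr⟩
    obtain ⟨z, hz⟩ := hOn
    simp only [Bd, dif_pos hr]
    rw [Finset.mem_filter]
    refine ⟨Finset.mem_univ _, ?_⟩
    rw [mem_BadSet]
    obtain ⟨Z, hZ⟩ := integral_solution hS hz (fun i => hrep i (P i))
    refine ⟨(Z : ZMod r), ?_⟩
    have := congrArg (Int.cast : ℤ → ZMod r) hZ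
    push_cast at this
    rw [← this]
    congr 1
    refine Finset.sum_congr rfl fun s _ => ?_
    simp only [vP, vec, mono]
    push_cast
    rfl
  · intro P P' r hF h4 hH
    have hr : r.Prime := hF.out
    simp only [Bd, dif_pos hr]
    obtain ⟨u, hu, hv⟩ := vec_cong hS (l := r) (fun i => hrep i (P i)) (fun i => hrep i (P' i)) hH
    have := badSet_scale hS hu hv
    ext t
    rw [Finset.mem_filter, Finset.mem_filter]
    simp only [Finset.mem_univ, true_and]
    have e2 : BadSet m S r (vP P r) = BadSet m S r (vP P' r) := this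
    rw [e2]

end

end Pool.Agent.Helper14.PS
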