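import Pool.Agent.Helper14.PS.Num

/-!
# PS-Num2: the choice of the parameters, with a lower bound for `x`

`numerics` with the further conclusion `log N ≤ x ^ (1 - 1/250)`.
-/

set_option autoImplicit false

namespace Pool.Agent.Helper14.PS

open Finset

/-- the estimates for a large `L = log N` -/
theorem num_aux2 (g k : ℕ) (c : ℝ) (hc : 0 < c) (hc1 : c ≤ 1) (x₀ : ℕ) (L : ℝ)
    (hl : 10000 ≤ Real.log L) (hlc : 5000 * Real.log c⁻¹ ≤ Real.log L)
    (hLx : (x₀ : ℝ) + 2 ≤ L) (hg : (g : ℝ) ≤ (1 / 10000) * L ^ (119 / 16400 : ℝ))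
    (hlL : Real.log L ≤ (1 / 1000) * L) (hL1 : 5000 ≤ L) (hLk : 5 * (k : ℝ) ≤ L) :
    ∃ x s : ℕ, x₀ ≤ x ∧ L ≤ (x : ℝ) ^ (1 - 1 / 250 : ℝ) ∧
      ∀ M ρ : ℕ, 0 < M → Real.log M ≤ (x : ℝ) ^ (1 - 1 / 82 : ℝ) →
      (x : ℝ) ^ (1 - 1 / 1000 : ℝ) ≤ ρ → s ≤ ρ ∧
        (M : ℝ) ^ g * ((c ^ (2 * s))⁻¹ * ((ρ.choose s : ℝ)⁻¹ + k * (x : ℝ) ^ (2 * s) /
          Real.exp L)) ≤ Real.exp (-(1 / 2000) * L) := by
  have hL0 : 0 < L := by linarith
  set l : ℝ := Real.log L with hld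
  set X : ℝ := L ^ (201 / 200 : ℝ) with hX
  have hXL : L ≤ X := by
    rw [hX]
    exact Real.self_le_rpow_of_one_le (by linarith) (by norm_num)
  have hX0 : 0 < X := by linarith
  have hlogX : Real.log X = 201 / 200 * l := by rw [hX, Real.log_rpow hL0]
  set x : ℕ := ⌊X⌋₊ with hx
  have hxX : (x : ℝ) ≤ X := Nat.floor_le hX0.le
  have hxX' : X < (x : ℝ) + 1 := Nat.lt_floor_add_one X
  have hx2 : X / 2 ≤ (x : ℝ) := by linarith
  have hx0 : (0 : ℝ) < (x : ℝ) := by linarith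
  set lx : ℝ := Real.log (x : ℝ) with hlx
  have hlx1 : lx ≤ 201 / 200 * l := by rw [← hlogX]; exact Real.log_le_log hx0 hxX
  have hlog2 : Real.log 2 ≤ 1 := by
    have := Real.log_le_sub_one_of_pos (show (0 : ℝ) < 2 by norm_num)
    linarith
  have hlx2 : 201 / 200 * l - 1 ≤ lx := by
    have h1 := Real.log_le_log (by linarith) hx2
    rw [Real.log_div hX0.ne' (by norm_num), hlogX] at h1
    linarith
  have hlx3 : l ≤ lx := by linarith
  have hlx0 : 0 < lx := by linarith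
  have hl0 : 0 < l := by linarith
  set s : ℕ := ⌊L / (4 * lx)⌋₊ with hs
  have hs1 : (s : ℝ) ≤ L / (4 * lx) := Nat.floor_le (by positivity)
  have hs2 : L / (4 * lx) < (s : ℝ) + 1 := Nat.lt_floor_add_one _
  have hs3 : (s : ℝ) ≤ L / (4 * l) := by
    refine hs1.trans ?_
    exact div_le_div_of_nonneg_left hL0.le (by positivity) (by linarith)
  have hs4 : L / (402 / 100 * l) - 1 ≤ (s : ℝ) := by
    have h1 : L / (402 / 100 * l) ≤ L / (4 * lx) :=
      div_le_div_of_nonneg_left hL0.le (by positivity) (by linarith)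
    linarith
  have hsL : (s : ℝ) ≤ L := by
    refine hs3.trans ?_
    rw [div_le_iff₀ (by positivity)]
    nlinarith
  -- lower bound of `L / (4.02 l)`
  have hq : 248 ≤ L / (402 / 100 * l) := by
    rw [le_div_iff₀ (by positivity)]
    linarith
  have hs0 : 1 ≤ (s : ℝ) := by linarith
  refine ⟨x, s, ?_, ?_, ?_⟩
  · rw [hx]
    apply Nat.le_floor
    linarith
  · rw [← Real.exp_log hL0, Real.rpow_def_of_pos hx0, Real.exp_le_exp]
    have h1 : (249 / 250 : ℝ) * (201 / 200 * l - 1) ≤ (249 / 250 : ℝ) * lx :=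
      mul_le_mul_of_nonneg_left hlx2 (by norm_num)
    have h2 : Real.log (x : ℝ) * (1 - 1 / 250) = (249 / 250 : ℝ) * lx := by rw [← hlx]; ring
    rw [h2]
    change l ≤ _
    linarith
  intro M ρ hM hlogM hρ
  have hxr : (0 : ℝ) < (x : ℝ) ^ (1 - 1 / 1000 : ℝ) := Real.rpow_pos_of_pos hx0 _
  have hρ0 : (0 : ℝ) < (ρ : ℝ) := lt_of_lt_of_le hxr hρ
  have hlρ : (1 - 1 / 1000) * lx ≤ Real.log (ρ : ℝ) := by
    rw [hlx, ← Real.log_rpow hx0]
    exact Real.log_le_log hxr hρ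
  have hlρ2 : l + (3995 / 1000000 * l - 1) ≤ Real.log (ρ : ℝ) := by
    have : (1 - 1 / 1000) * (201 / 200 * l - 1) ≤ (1 - 1 / 1000) * lx :=
      mul_le_mul_of_nonneg_left hlx2 (by norm_num)
    linarith
  have hsρ' : (s : ℝ) ≤ (ρ : ℝ) := by
    have h1 : L ≤ (ρ : ℝ) := by
      rw [← Real.log_le_log_iff hL0 hρ0]
      linarith
    linarith
  have hsρ : s ≤ ρ := by exact_mod_cast hsρ'
  refine ⟨hsρ, ?_⟩
  -- the factor `M ^ g`
  have hM0 : (0 : ℝ) < (M : ℝ) := by exact_mod_cast hM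
  have b1 : (M : ℝ) ^ g ≤ Real.exp (1 / 10000 * L) := by
    have e1 : (M : ℝ) ^ g = Real.exp ((g : ℝ) * Real.log (M : ℝ)) := by
      rw [mul_comm, Real.exp_mul, Real.exp_log hM0, Real.rpow_natCast]
    rw [e1, Real.exp_le_exp]
    have e2 : (x : ℝ) ^ (1 - 1 / 82 : ℝ) ≤ X ^ (1 - 1 / 82 : ℝ) :=
      Real.rpow_le_rpow hx0.le hxX (by norm_num)
    have e3 : X ^ (1 - 1 / 82 : ℝ) = L ^ (16281 / 16400 : ℝ) := by
      rw [hX, ← Real.rpow_mul hL0.le]; norm_num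
    have e4 : (g : ℝ) * Real.log (M : ℝ) ≤ (g : ℝ) * L ^ (16281 / 16400 : ℝ) := by
      apply mul_le_mul_of_nonneg_left _ (Nat.cast_nonneg g)
      rw [← e3]; exact hlogM.trans e2
    have e5 : (g : ℝ) * L ^ (16281 / 16400 : ℝ) ≤
        (1 / 10000) * L ^ (119 / 16400 : ℝ) * L ^ (16281 / 16400 : ℝ) :=
      mul_le_mul_of_nonneg_right hg (Real.rpow_nonneg hL0.le _)
    have e6 : L ^ (119 / 16400 : ℝ) * L ^ (16281 / 16400 : ℝ) = L := by
      rw [← Real.rpow_add hL0]; norm_num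
    rw [mul_assoc, e6] at e5
    linarith
  -- the factor with `c`
  have hlc0 : 0 ≤ Real.log c⁻¹ := Real.log_nonneg ((one_le_inv₀ hc).2 hc1)
  have b2 : (c ^ (2 * s))⁻¹ ≤ Real.exp (1 / 10000 * L) := by
    have e1 : (c ^ (2 * s))⁻¹ = Real.exp (((2 * s : ℕ) : ℝ) * Real.log c⁻¹) := by
      rw [Real.exp_nat_mul, Real.exp_log (inv_pos.2 hc), inv_pow]
    rw [e1, Real.exp_le_exp]
    push_cast
    have e2 : 2 * (s : ℝ) * Real.log c⁻¹ ≤ 2 * (L / (4 * l)) * (l / 5000) := by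
      apply mul_le_mul
      · linarith
      · linarith
      · exact hlc0
      · positivity
    have e3 : 2 * (L / (4 * l)) * (l / 5000) = 1 / 10000 * L := by field_simp; norm_num
    linarith
  -- the binomial coefficient
  have hch : (0 : ℝ) < (ρ.choose s : ℝ) := by exact_mod_cast Nat.choose_pos hsρ
  have hs0' : (0 : ℝ) < (s : ℝ) := by linarith
  have b3 : (ρ.choose s : ℝ)⁻¹ ≤ Real.exp (-(9 / 10000) * L) := by
    have e1 : (ρ : ℝ) ^ s ≤ (s : ℝ) ^ s * (ρ.choose s : ℝ) := by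
      exact_mod_cast pow_le_choose' s ρ hsρ
    have e2 := Real.log_le_log (by positivity) e1
    rw [Real.log_mul (by positivity) hch.ne', Real.log_pow, Real.log_pow] at e2
    have e3 : Real.log (s : ℝ) ≤ l := Real.log_le_log hs0' hsL
    have e4 : (L / (402 / 100 * l) - 1) * (3995 / 1000000 * l - 1) ≤
        (s : ℝ) * (Real.log (ρ : ℝ) - Real.log (s : ℝ)) := by
      apply mul_le_mul hs4
      · linarith
      · linarith
      · linarith
    have e5 : (L / (402 / 100 * l) - 1) * (3995 / 1000000 * l - 1) =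
        3995 / 4020000 * L - L / (402 / 100 * l) - 3995 / 1000000 * l + 1 := by
      field_simp
      ring
    have e6 : L / (402 / 100 * l) ≤ L / 40200 := by
      apply div_le_div_of_nonneg_left hL0.le (by norm_num)
      linarith
    have e7 : 9 / 10000 * L ≤ Real.log (ρ.choose s : ℝ) := by
      have : (s : ℝ) * (Real.log (ρ : ℝ) - Real.log (s : ℝ)) =
        (s : ℝ) * Real.log (ρ : ℝ) - (s : ℝ) * Real.log (s : ℝ) := by ring
      linarith
    have e8 : (ρ.choose s : ℝ)⁻¹ = Real.exp (-Real.log (ρ.choose s : ℝ)) := by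
      rw [Real.exp_neg, Real.exp_log hch]
    rw [e8, Real.exp_le_exp]
    linarith
  have b4 : (x : ℝ) ^ (2 * s) / Real.exp L ≤ Real.exp (-(1 / 2) * L) := by
    have e1 : (x : ℝ) ^ (2 * s) = Real.exp (((2 * s : ℕ) : ℝ) * lx) := by
      rw [Real.exp_nat_mul, hlx, Real.exp_log hx0]
    rw [e1, ← Real.exp_sub, Real.exp_le_exp]
    push_cast
    have e2 : 2 * (s : ℝ) * lx ≤ 2 * (L / (4 * lx)) * lx :=
      mul_le_mul_of_nonneg_right (by linarith) hlx0.le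
    have e3 : 2 * (L / (4 * lx)) * lx = 1 / 2 * L := by field_simp; norm_num
    linarith
  have b5 : (ρ.choose s : ℝ)⁻¹ + k * (x : ℝ) ^ (2 * s) / Real.exp L ≤
      Real.exp (-(7 / 10000) * L) := by
    have e1 : (k : ℝ) * (x : ℝ) ^ (2 * s) / Real.exp L =
        (k : ℝ) * ((x : ℝ) ^ (2 * s) / Real.exp L) := by rw [mul_div_assoc]
    have e2 : (k : ℝ) * ((x : ℝ) ^ (2 * s) / Real.exp L) ≤ (k : ℝ) * Real.exp (-(1 / 2) * L) :=
      mul_le_mul_of_nonneg_left b4 (Nat.cast_nonneg k)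
    have e3 : (2 : ℝ) ≤ Real.exp (2 / 10000 * L) := by
      have := Real.add_one_le_exp (2 / 10000 * L)
      linarith
    have e4 : 2 * (k : ℝ) ≤ Real.exp ((1 / 2 - 7 / 10000) * L) := by
      have := Real.add_one_le_exp ((1 / 2 - 7 / 10000) * L)
      linarith
    have e5 : Real.exp (-(7 / 10000) * L) =
        Real.exp (2 / 10000 * L) * Real.exp (-(9 / 10000) * L) := by
      rw [← Real.exp_add]; congr 1; ring
    have e6 : Real.exp (-(7 / 10000) * L) =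
        Real.exp ((1 / 2 - 7 / 10000) * L) * Real.exp (-(1 / 2) * L) := by
      rw [← Real.exp_add]; congr 1; ring
    have e7 : 2 * Real.exp (-(9 / 10000) * L) ≤ Real.exp (-(7 / 10000) * L) := by
      rw [e5]; exact mul_le_mul_of_nonneg_right e3 (Real.exp_pos _).le
    have e8 : 2 * (k : ℝ) * Real.exp (-(1 / 2) * L) ≤ Real.exp (-(7 / 10000) * L) := by
      rw [e6]; exact mul_le_mul_of_nonneg_right e4 (Real.exp_pos _).le
    rw [e1]
    linarith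
  have hpos : 0 ≤ (ρ.choose s : ℝ)⁻¹ + k * (x : ℝ) ^ (2 * s) / Real.exp L := by positivity
  calc (M : ℝ) ^ g * ((c ^ (2 * s))⁻¹ * ((ρ.choose s : ℝ)⁻¹ + k * (x : ℝ) ^ (2 * s) /
          Real.exp L)) ≤ Real.exp (1 / 10000 * L) * (Real.exp (1 / 10000 * L) *
          Real.exp (-(7 / 10000) * L)) := by
        apply mul_le_mul b1 _ (by positivity) (Real.exp_pos _).le
        exact mul_le_mul b2 b5 hpos (Real.exp_pos _).le
    _ = Real.exp (-(1 / 2000) * L) := by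
        rw [← Real.exp_add, ← Real.exp_add]; congr 1; ring

theorem numerics2 (g k : ℕ) (c : ℝ) (hc : 0 < c) (hc1 : c ≤ 1) (x₀ : ℕ) : ∃ N₀ : ℕ, ∀ N : ℕ, N₀ ≤ N →
    ∃ x s : ℕ, x₀ ≤ x ∧ Real.log N ≤ (x : ℝ) ^ (1 - 1 / 250 : ℝ) ∧
      ∀ M ρ : ℕ, 0 < M → Real.log M ≤ (x : ℝ) ^ (1 - 1 / 82 : ℝ) →
      (x : ℝ) ^ (1 - 1 / 1000 : ℝ) ≤ ρ → s ≤ ρ ∧
        (M : ℝ) ^ g * ((c ^ (2 * s))⁻¹ * ((ρ.choose s : ℝ)⁻¹ + k * (x : ℝ) ^ (2 * s) / N)) ≤
          (N : ℝ) ^ (-(1 / 2000) : ℝ) := by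
  have h1 := Real.tendsto_log_atTop.eventually_ge_atTop (10000 : ℝ)
  have h2 := Real.tendsto_log_atTop.eventually_ge_atTop (5000 * Real.log c⁻¹)
  have h3 := Filter.eventually_ge_atTop ((x₀ : ℝ) + 2)
  have h4 := (tendsto_rpow_atTop (show (0 : ℝ) < 119 / 16400 by norm_num)).eventually_ge_atTop
    (10000 * (g : ℝ))
  have h5 := Real.isLittleO_log_id_atTop.bound (show (0 : ℝ) < 1 / 1000 by norm_num)
  have h6 := Filter.eventually_ge_atTop (5000 : ℝ)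
  have h7 := Filter.eventually_ge_atTop (5 * (k : ℝ))
  obtain ⟨L₀, hL₀⟩ := Filter.eventually_atTop.1
    (h1.and (h2.and (h3.and (h4.and (h5.and (h6.and h7))))))
  refine ⟨⌈Real.exp L₀⌉₊ + 1, ?_⟩
  intro N hN
  have hN1 : Real.exp L₀ ≤ (N : ℝ) := by
    have k1 : Real.exp L₀ ≤ (⌈Real.exp L₀⌉₊ : ℝ) := Nat.le_ceil _
    have k2 : ((⌈Real.exp L₀⌉₊ + 1 : ℕ) : ℝ) ≤ (N : ℝ) := by exact_mod_cast hN
    push_cast at k2
    linarith
  have hN0 : (0 : ℝ) < (N : ℝ) := lt_of_lt_of_le (Real.exp_pos _) hN1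
  have hL : L₀ ≤ Real.log (N : ℝ) := by
    rw [← Real.log_exp L₀]
    exact Real.log_le_log (Real.exp_pos _) hN1
  obtain ⟨k1, k2, k3, k4, k5, k6, k7⟩ := hL₀ _ hL
  have hLpos : 0 < Real.log (N : ℝ) := by linarith
  have k5' : Real.log (Real.log (N : ℝ)) ≤ 1 / 1000 * Real.log (N : ℝ) := by
    simp only [id_eq, Real.norm_eq_abs] at k5
    rw [abs_of_pos hLpos] at k5
    exact (le_abs_self _).trans k5
  obtain ⟨x, s, hx, hxL, hxs⟩ := num_aux2 g k c hc hc1 x₀ (Real.log (N : ℝ)) k1 k2 k3 (by linarith) k5'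
    k6 k7
  refine ⟨x, s, hx, hxL, ?_⟩
  intro M ρ hM hlM hρ
  obtain ⟨m1, m2⟩ := hxs M ρ hM hlM hρ
  refine ⟨m1, ?_⟩
  rw [Real.exp_log hN0] at m2
  have e : (N : ℝ) ^ (-(1 / 2000) : ℝ) = Real.exp (-(1 / 2000) * Real.log (N : ℝ)) := by
    rw [mul_comm, Real.exp_mul, Real.exp_log hN0]
  rw [e]
  exact m2

end Pool.Agent.Helper14.PS
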