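import Mathlib

/-!
# Power saving in the pencil theorem (MP_2ae8fe_ag): definitions
-/

set_option autoImplicit false

namespace Pool.Agent.Helper14.PS

open Finset

/-- The box `{0, …, N - 1} ^ k`. -/
noncomputable def Bx (k N : ℕ) : Finset (Fin k → ℤ) := Fintype.piFinset fun _ => Finset.Ico (0 : ℤ) N

theorem mem_Bx {k N : ℕ} {t : Fin k → ℤ} : t ∈ Bx k N ↔ ∀ i, 0 ≤ t i ∧ t i < N := by
  simp [Bx, Fintype.mem_piFinset]

theorem card_Bx (k N : ℕ) : #(Bx k N) = N ^ k := by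
  rw [Bx, Fintype.card_piFinset]
  simp

/-- `g` is periodic modulo `r`, bounded by `1`, and its sum over a period is zero. -/
structure Osc {k : ℕ} (r : ℕ) (g : (Fin k → ℤ) → ℝ) : Prop where
  per : ∀ t v : Fin k → ℤ, g (fun i => t i + r * v i) = g t
  bd : ∀ t, |g t| ≤ 1
  zero : ∑ t ∈ Bx k r, g t = 0

end Pool.Agent.Helper14.PS
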