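import Pool.Agent.Helper18.BV.Bv
import Pool.Agent.Helper44.BV.Mass
import Pool.Agent.Helper43.PS.ManySum
import Pool.Agent.Helper48.PS.ManyEnd

/-!
# PS-Many: many primes `r = -1 mod D` such that `r + 1` has a prime factor in `(x ^ (1/81), x ^ (1/80)]`

PROOF.  Weight `g` of `Pool.Agent.Helper18.BV.IsWt`, not identically zero, supported in `(1 - τ', 1)`, `τ' = min (τ/2) (1/2)`
(`exists_wt` in Helper18/BV/Assemble.lean; copy its proof if the import is heavy).  `bv` with `A = 1` for `c d = d - 1`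
(class of `-1`), moduli `d = D q`, `q` prime in `(x ^ (1/81), x ^ (1/80)]` not dividing `D` (automatic for large `x`);
`D q ≤ x ^ (1/40)`.  `(1 / φ (D q)) ≥ 1 / (φ D q)`, `∑ 1 / q ≥ c₀ > 0` for large `x` (`sum of 1/p over (y, y^(81/80)]`: Mertens,
e.g. Helper44/MertensInterval.lean, or any lower bound of Helper44/Mertens.lean by partial summation), `Mass`
(`Pool.Agent.Helper44.BV.mass`): so `∑ q, ∑ n ≡ -1 (mod D q), Λ n * wt g x n ≥ c₁ log x - C`.  Every `n ≤ x` is counted at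
most `81` times (`q` runs over distinct prime divisors `> x ^ (1/81)` of `n + 1 ≤ x + 1`).  The prime powers `n = p ^ j`, `j ≥ 2`,
`n > x ^ (1/2)`, contribute `O(log x * x ^ (-1/4) * ..)`: at most `81 * max g * log x * ∑ 1/n` over such `n ≤ x` (or: the
number of proper prime powers up to `x` is at most `x ^ (1/2) log x`, `1 / n ≤ x ^ (-(1 - τ'))`; take `τ' ≤ 1/4`).  So for the set
`R` of the statement `81 * max g * log x * ∑ r ∈ R, 1 / r ≥ c₂ log x`, and `1 / r ≤ x ^ (-(1 - τ'))` on the support of `g`: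
`#R ≥ c₃ x ^ (1 - τ') ≥ x ^ (1 - τ)` for large `x`.  (`r > B` is automatic since `r ≥ x ^ (1 - τ')`.)
-/

set_option autoImplicit false

namespace Pool.Agent.Helper14.PS

open Finset

open Classical in
/-- The primes `r ≤ x`, `r > B`, `D ∣ r + 1`, for which `r + 1` has a prime factor in
`(x ^ (1/81), x ^ (1/80)]`. -/
noncomputable def Rset (D B x : ℕ) : Finset ℕ :=
  (Icc 1 x).filter (fun r => r.Prime ∧ D ∣ r + 1 ∧ B < r ∧ ∃ q : ℕ, q.Prime ∧
    (x : ℝ) ^ (1 / 81 : ℝ) < q ∧ (q : ℝ) ≤ (x : ℝ) ^ (1 / 80 : ℝ) ∧ q ∣ r + 1)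

open Pool.Agent.Helper18.BV in
theorem manySum {D : ℕ} (hD : 0 < D) (g : ℝ → ℝ) (hg : IsWt g) (hne : ∃ v, g v ≠ 0) :
    Pool.Agent.Helper48.PS.ManySum D g := by
  obtain ⟨c, X0, hc, hX0, h⟩ := Pool.Agent.Helper43.PS.many_sum hD hg hne
  refine ⟨c, hc, ⌈X0⌉₊, fun x hx => ?_⟩
  have hx' : X0 ≤ (x : ℝ) := (Nat.le_ceil X0).trans (by exact_mod_cast hx)
  have hx3 : (3 : ℝ) ≤ x := hX0.trans hx'
  have h1 := h x hx'
  rw [Nat.floor_natCast] at h1
  have hQ : (Ioc ⌊(x : ℝ) ^ (1 / 81 : ℝ)⌋₊ ⌊(x : ℝ) ^ (1 / 80 : ℝ)⌋₊).filter Nat.Prime =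
      Pool.Agent.Helper48.PS.Qs x := by
    ext q
    unfold Pool.Agent.Helper48.PS.Qs
    rw [Finset.mem_filter, Finset.mem_filter, Finset.mem_Ioc, Finset.mem_Icc,
      Nat.floor_lt (by positivity), Nat.le_floor_iff (by positivity)]
    constructor
    · rintro ⟨⟨a, b⟩, hp⟩
      refine ⟨⟨hp.one_lt.le, ?_⟩, hp, a, b⟩
      have h2 : (x : ℝ) ^ (1 / 80 : ℝ) ≤ (x : ℝ) ^ (1 : ℝ) :=
        Real.rpow_le_rpow_of_exponent_le (by linarith) (by norm_num)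
      rw [Real.rpow_one] at h2
      exact_mod_cast b.trans h2
    · rintro ⟨_, hp, a, b⟩
      exact ⟨⟨a, b⟩, hp⟩
  rw [hQ] at h1
  exact h1

theorem many_primes {D : ℕ} (hD : 0 < D) (B : ℕ) (τ : ℝ) (hτ : 0 < τ) : ∃ x₀ : ℕ, ∀ x : ℕ, x₀ ≤ x →
    (x : ℝ) ^ (1 - τ) ≤ #(Rset D B x) := by
  exact Pool.Agent.Helper48.PS.many_of_sum (fun g hg hne => manySum hD g hg hne) B τ hτ

end Pool.Agent.Helper14.PS
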