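import Pool.Agent.Helper11.Cov.SS4
import Pool.Agent.Helper14.PS.Many
import Pool.Agent.Helper14.PS.Modulus

/-!
# PS-Key: the arithmetic input

PROOF of `key5_ss`.  As `key4_ss` in Pool/Agent/Helper11/Cov/SS4.lean (first part `(key_ss a b hg hab).1`), with
`D = 4 * ∏ i, m i`, `R = Rset D B' x`, `M` from `exists_modulus`; `x₀` the maximum of the two.
-/

set_option autoImplicit false

namespace Pool.Agent.Helper14.PS

open WeierstrassCurve Finset Pool.Agent.Helper10.SS Pool.Agent.Helper6.CI Pool.Agent.Helper11.Cov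

/-- Finite generation together with very many primes `r = 3 mod 4` killing the groups. -/
def Key5 {n : ℕ} (a b : Fin n → ℤ) : Prop :=
  (∀ i, ∃ g : ℕ, ∃ G : Fin g → (E (a i) (b i)).Point, ∀ P, ∃ k : Fin g → ℤ, P = ∑ j, k j • G j) ∧
  ∀ τ : ℝ, 0 < τ → ∃ x₀ : ℕ, ∀ x : ℕ, x₀ ≤ x → ∃ M : ℕ, 0 < M ∧ ∃ R : Finset ℕ,
    (∀ r ∈ R, r ≤ x ∧ r % 4 = 3 ∧ ∃ _ : Fact r.Prime, ∀ i, ∀ P : (E (a i) (b i)).Point,
      InH r (M • P)) ∧
    (x : ℝ) ^ (1 - τ) ≤ #R ∧ Real.log M ≤ (x : ℝ) ^ (1 - 1 / 82 : ℝ)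

theorem key5_ss {n : ℕ} (a b : Fin n → ℤ) (hg : ∀ i, Good (a i) (b i))
    (hab : ∀ i, Supersingular (a i) (b i)) : Key5 a b := by
  classical
  refine ⟨(key_ss a b hg hab).1, fun τ hτ => ?_⟩
  choose m B hm hB using hab
  set D : ℕ := 4 * ∏ i, m i with hD
  have hD0 : 0 < D := Nat.mul_pos (by norm_num) (Finset.prod_pos fun i _ => hm i)
  set B' : ℕ := 3 + ∑ i, (B i + (4 * a i ^ 3 + 27 * b i ^ 2).natAbs) with hB'
  obtain ⟨x₁, hx₁⟩ := many_primes hD0 B' τ hτ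
  obtain ⟨x₂, hx₂⟩ := exists_modulus
  refine ⟨max x₁ x₂, fun x hx => ?_⟩
  obtain ⟨M, hM, hMl, hMd⟩ := hx₂ x ((le_max_right _ _).trans hx)
  refine ⟨M, hM, Rset D B' x, fun r hr => ?_, hx₁ x ((le_max_left _ _).trans hx), hMl⟩
  rw [Rset, Finset.mem_filter, Finset.mem_Icc] at hr
  obtain ⟨⟨hr1, hrx⟩, hp, h1, hrB, q, hq, hq1, hq2, hq3⟩ := hr
  have hrM : r + 1 ∣ M := hMd r q hrx hq hq1 hq2 hq3
  have hF : Fact r.Prime := ⟨hp⟩
  have h4 : 4 ∣ r + 1 := (Dvd.intro _ rfl).trans h1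
  refine ⟨hrx, by omega, hF, fun i P => ?_⟩
  have hle : B i + (4 * a i ^ 3 + 27 * b i ^ 2).natAbs ≤
      ∑ i, (B i + (4 * a i ^ 3 + 27 * b i ^ 2).natAbs) :=
    Finset.single_le_sum (f := fun i => B i + (4 * a i ^ 3 + 27 * b i ^ 2).natAbs)
      (fun _ _ => Nat.zero_le _) (Finset.mem_univ i)
  have hgood : GoodAt (a i) (b i) r := by
    refine ⟨by omega, fun hd => ?_⟩
    have h1 := Int.natCast_dvd.mp hd
    have h2 := Nat.le_of_dvd (Int.natAbs_pos.mpr (hg i)) h1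
    omega
  have hdvd : m i ∣ r + 1 :=
    ((Finset.dvd_prod_of_mem m (Finset.mem_univ i)).trans (Dvd.intro_left _ rfl)).trans h1
  have h3 := hB i r hp (by omega) hdvd
  obtain ⟨c, hc⟩ := hrM
  have key : InH r ((r + 1) • P) := kill_of_card hgood
    (by rw [card_reduced (a i) (b i) hgood, h3]) P
  have := key.nsmul c
  rwa [smul_smul, mul_comm, ← hc] at this

end Pool.Agent.Helper14.PS
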