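import Pool.Agent.Helper14.PS.Defs

/-!
# PS-Orth: near orthogonality of products of oscillating functions in a box

PROOF.  `F t = (∏ r ∈ S, g r t) * ∏ r ∈ S', g r t`, `Q = ∏ r ∈ S ∪ S', r`, `|F| ≤ 1`.  (1) If `Q ∣ N'` then
`∑ t ∈ Bx k N', F t = 0`: let `r₀` be in exactly one of `S`, `S'`, `q' = Q / r₀` (prime to `r₀`), so `F = g r₀ * G` with `G`
periodic modulo `q'`.  The sum of `F` over `Bx k N'` does not change under `t ↦ t + q' v`; summing over `v` in `Bx k r₀` gives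
`∑ t, G t * ∑ v, g r₀ (t + q' v)`, and `v ↦ t + q' v` is a bijection of `(ZMod r₀) ^ k`, so the inner sum is the sum of
`g r₀` over `Bx k r₀`, which is `0`.  (2) In general `N' = Q * (N / Q)`: the points of
`Bx k N` outside `Bx k N'` number `N ^ k - N' ^ k ≤ k (N - N') N ^ (k - 1) ≤ k Q N ^ (k - 1)`.
-/

set_option autoImplicit false

namespace Pool.Agent.Helper14.PS

open Finset

/-- Affine change of variables for a periodic function on a full box. -/
theorem sum_affine {k : ℕ} (n : ℕ) (f : (Fin k → ℤ) → ℝ)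
    (hf : ∀ t v : Fin k → ℤ, f (fun i => t i + n * v i) = f t) (c : Fin k → ℤ) (u : ℤ)
    (hu : IsCoprime u (n : ℤ)) :
    ∑ t ∈ Bx k n, f (fun i => c i + u * t i) = ∑ t ∈ Bx k n, f t := by
  rcases Nat.eq_zero_or_pos n with rfl | hn
  · refine Finset.sum_congr rfl fun t ht => ?_
    rcases Nat.eq_zero_or_pos k with rfl | hk
    · exact congrArg f (Subsingleton.elim _ _)
    · have h := mem_Bx.1 ht ⟨0, hk⟩
      push_cast at h
      omega
  · have hn' : (0 : ℤ) < n := by exact_mod_cast hn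
    have hmaps : ∀ t ∈ Bx k n, (fun i => (c i + u * t i) % (n : ℤ)) ∈ Bx k n := by
      intro t _
      exact mem_Bx.2 fun i => ⟨Int.emod_nonneg _ hn'.ne', Int.emod_lt_of_pos _ hn'⟩
    have hinj : Set.InjOn (fun (t : Fin k → ℤ) (i : Fin k) => (c i + u * t i) % (n : ℤ))
        (Bx k n : Set (Fin k → ℤ)) := by
      intro t ht t' ht' h
      funext i
      have h1 : (c i + u * t i) % (n : ℤ) = (c i + u * t' i) % (n : ℤ) := congrFun h i
      have h2 : (n : ℤ) ∣ (c i + u * t' i) - (c i + u * t i) := Int.ModEq.dvd h1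
      have h3 : (n : ℤ) ∣ u * (t' i - t i) := by
        have : u * (t' i - t i) = (c i + u * t' i) - (c i + u * t i) := by ring
        rw [this]; exact h2
      have h4 : (n : ℤ) ∣ t' i - t i := hu.symm.dvd_of_dvd_mul_left h3
      have h5 := mem_Bx.1 (Finset.mem_coe.1 ht) i
      have h6 := mem_Bx.1 (Finset.mem_coe.1 ht') i
      have h7 : t' i - t i = 0 := by
        refine Int.eq_zero_of_abs_lt_dvd h4 ?_
        rw [abs_lt]
        constructor <;> linarith [h5.1, h5.2, h6.1, h6.2]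
      linarith
    refine Finset.sum_nbij (fun (t : Fin k → ℤ) (i : Fin k) => (c i + u * t i) % (n : ℤ)) hmaps hinj
      ?_ ?_
    · exact Finset.surjOn_of_injOn_of_card_le _ hmaps hinj le_rfl
    · intro t _
      have h := hf (fun i => (c i + u * t i) % (n : ℤ)) (fun i => (c i + u * t i) / (n : ℤ))
      rw [← h]
      congr 1
      funext i
      exact (Int.emod_add_mul_ediv _ _).symm

theorem per_of_dvd {k r : ℕ} {g : (Fin k → ℤ) → ℝ} (hg : Osc r g) {q : ℤ} (h : (r : ℤ) ∣ q)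
    (t v : Fin k → ℤ) : g (fun i => t i + q * v i) = g t := by
  obtain ⟨m, rfl⟩ := h
  have := hg.per t (fun i => m * v i)
  rw [← this]
  congr 1
  funext i
  ring

/-- Full periods, one direction. -/
theorem sum_period_aux {k : ℕ} (g : ℕ → (Fin k → ℤ) → ℝ) (S S' : Finset ℕ)
    (hS : ∀ r ∈ S ∪ S', r.Prime) (hg : ∀ r ∈ S ∪ S', Osc r (g r)) (r₀ : ℕ) (h0 : r₀ ∈ S)
    (h0' : r₀ ∉ S') (N : ℕ) (hN : (∏ r ∈ S ∪ S', r) ∣ N) :
    ∑ t ∈ Bx k N, (∏ r ∈ S, g r t) * ∏ r ∈ S', g r t = 0 := by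
  have hU : r₀ ∈ S ∪ S' := Finset.mem_union_left _ h0
  set q : ℕ := ∏ r ∈ (S ∪ S').erase r₀, r with hq
  have hcop : IsCoprime (q : ℤ) (r₀ : ℤ) := by
    rw [Nat.isCoprime_iff_coprime]
    refine Nat.Coprime.prod_left fun r hr => ?_
    rw [Finset.mem_erase] at hr
    exact (Nat.coprime_primes (hS r hr.2) (hS r₀ hU)).2 hr.1
  have hdvdN : ∀ r ∈ S ∪ S', (r : ℤ) ∣ (N : ℤ) := fun r hr =>
    Int.natCast_dvd_natCast.2 ((Finset.dvd_prod_of_mem (fun r => r) hr).trans hN)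
  have hdvdq : ∀ r ∈ S ∪ S', r ≠ r₀ → (r : ℤ) ∣ (q : ℤ) := fun r hr hne =>
    Int.natCast_dvd_natCast.2
      (Finset.dvd_prod_of_mem (fun r => r) (Finset.mem_erase.2 ⟨hne, hr⟩))
  set F : (Fin k → ℤ) → ℝ := fun t => (∏ r ∈ S, g r t) * ∏ r ∈ S', g r t with hF
  set G : (Fin k → ℤ) → ℝ := fun t => (∏ r ∈ S.erase r₀, g r t) * ∏ r ∈ S', g r t with hG
  have hFG : ∀ t, F t = G t * g r₀ t := by
    intro t
    simp only [hF, hG]
    rw [← Finset.mul_prod_erase S (fun r => g r t) h0]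
    ring
  have hFper : ∀ t v : Fin k → ℤ, F (fun i => t i + (N : ℤ) * v i) = F t := by
    intro t v
    simp only [hF]
    congr 1
    · exact Finset.prod_congr rfl fun r hr =>
        per_of_dvd (hg r (Finset.mem_union_left _ hr)) (hdvdN r (Finset.mem_union_left _ hr)) t v
    · exact Finset.prod_congr rfl fun r hr =>
        per_of_dvd (hg r (Finset.mem_union_right _ hr)) (hdvdN r (Finset.mem_union_right _ hr)) t v
  have hGper : ∀ t v : Fin k → ℤ, G (fun i => t i + (q : ℤ) * v i) = G t := by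
    intro t v
    simp only [hG]
    congr 1
    · refine Finset.prod_congr rfl fun r hr => ?_
      rw [Finset.mem_erase] at hr
      exact per_of_dvd (hg r (Finset.mem_union_left _ hr.2))
        (hdvdq r (Finset.mem_union_left _ hr.2) hr.1) t v
    · refine Finset.prod_congr rfl fun r hr => ?_
      exact per_of_dvd (hg r (Finset.mem_union_right _ hr))
        (hdvdq r (Finset.mem_union_right _ hr) (fun h => h0' (h ▸ hr))) t v
  have hshift : ∀ v : Fin k → ℤ,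
      ∑ t ∈ Bx k N, F (fun i => t i + (q : ℤ) * v i) = ∑ t ∈ Bx k N, F t := by
    intro v
    have h := sum_affine N F hFper (fun i => (q : ℤ) * v i) 1 isCoprime_one_left
    rw [← h]
    refine Finset.sum_congr rfl fun t _ => ?_
    congr 1
    funext i
    ring
  have hinner : ∀ t : Fin k → ℤ, ∑ v ∈ Bx k r₀, g r₀ (fun i => t i + (q : ℤ) * v i) = 0 := by
    intro t
    rw [sum_affine r₀ (g r₀) (hg r₀ hU).per t (q : ℤ) hcop]
    exact (hg r₀ hU).zero
  have hsum : ∑ v ∈ Bx k r₀, ∑ t ∈ Bx k N, F (fun i => t i + (q : ℤ) * v i) = 0 := by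
    rw [Finset.sum_comm]
    refine Finset.sum_eq_zero fun t _ => ?_
    have : ∀ v ∈ Bx k r₀, F (fun i => t i + (q : ℤ) * v i) =
        G t * g r₀ (fun i => t i + (q : ℤ) * v i) := by
      intro v _
      rw [hFG, hGper]
    rw [Finset.sum_congr rfl this, ← Finset.mul_sum, hinner, mul_zero]
  rw [Finset.sum_congr rfl (fun v _ => hshift v), Finset.sum_const, card_Bx, nsmul_eq_mul] at hsum
  have hpos : ((r₀ ^ k : ℕ) : ℝ) ≠ 0 := by
    exact_mod_cast pow_ne_zero k (hS r₀ hU).ne_zero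
  exact (mul_eq_zero.1 hsum).resolve_left hpos

/-- Full periods. -/
theorem sum_period {k : ℕ} (g : ℕ → (Fin k → ℤ) → ℝ) (S S' : Finset ℕ)
    (hS : ∀ r ∈ S ∪ S', r.Prime) (hg : ∀ r ∈ S ∪ S', Osc r (g r)) (hne : S ≠ S') (N : ℕ)
    (hN : (∏ r ∈ S ∪ S', r) ∣ N) :
    ∑ t ∈ Bx k N, (∏ r ∈ S, g r t) * ∏ r ∈ S', g r t = 0 := by
  have hex : ∃ r₀, (r₀ ∈ S ∧ r₀ ∉ S') ∨ (r₀ ∈ S' ∧ r₀ ∉ S) := by
    by_contra hcon
    push Not at hcon
    apply hne
    ext r
    exact ⟨(hcon r).1, (hcon r).2⟩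
  obtain ⟨r₀, h | h⟩ := hex
  · exact sum_period_aux g S S' hS hg r₀ h.1 h.2 N hN
  · have h2 := sum_period_aux g S' S (by rwa [Finset.union_comm]) (by rwa [Finset.union_comm])
      r₀ h.1 h.2 N (by rwa [Finset.union_comm])
    rw [← h2]
    exact Finset.sum_congr rfl fun t _ => mul_comm _ _

theorem orth {k : ℕ} (g : ℕ → (Fin k → ℤ) → ℝ) (S S' : Finset ℕ)
    (hS : ∀ r ∈ S ∪ S', r.Prime) (hg : ∀ r ∈ S ∪ S', Osc r (g r)) (hne : S ≠ S') (N : ℕ) :
    |∑ t ∈ Bx k N, (∏ r ∈ S, g r t) * ∏ r ∈ S', g r t| ≤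
      k * (∏ r ∈ S ∪ S', (r : ℝ)) * (N : ℝ) ^ (k - 1) := by
  set Q : ℕ := ∏ r ∈ S ∪ S', r with hQ
  have hQpos : 0 < Q := Finset.prod_pos fun r hr => (hS r hr).pos
  set M : ℕ := Q * (N / Q) with hM
  have hMN : M ≤ N := Nat.mul_div_le N Q
  have hNM : N ≤ M + Q := by
    have := Nat.div_add_mod N Q
    have h2 := Nat.mod_lt N hQpos
    omega
  have hsub : Bx k M ⊆ Bx k N := by
    intro t ht
    rw [mem_Bx] at ht ⊢
    intro i
    have h3 : (M : ℤ) ≤ N := by exact_mod_cast hMN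
    exact ⟨(ht i).1, (ht i).2.trans_le h3⟩
  have hzero := sum_period g S S' hS hg hne M (Dvd.intro _ rfl)
  rw [← Finset.sum_sdiff hsub, hzero, add_zero]
  have hbd : ∀ t ∈ Bx k N \ Bx k M, |(∏ r ∈ S, g r t) * ∏ r ∈ S', g r t| ≤ 1 := by
    intro t _
    rw [abs_mul, Finset.abs_prod, Finset.abs_prod]
    have h1 : ∏ r ∈ S, |g r t| ≤ 1 := Finset.prod_le_one (fun r _ => abs_nonneg _)
      fun r hr => (hg r (Finset.mem_union_left _ hr)).bd t
    have h2 : ∏ r ∈ S', |g r t| ≤ 1 := Finset.prod_le_one (fun r _ => abs_nonneg _)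
      fun r hr => (hg r (Finset.mem_union_right _ hr)).bd t
    have h3 : 0 ≤ ∏ r ∈ S', |g r t| := Finset.prod_nonneg fun r _ => abs_nonneg _
    exact mul_le_one₀ h1 h3 h2
  refine (Finset.abs_sum_le_sum_abs _ _).trans ((Finset.sum_le_sum hbd).trans ?_)
  rw [Finset.sum_const, nsmul_eq_mul, mul_one, Finset.card_sdiff_of_subset hsub, card_Bx, card_Bx,
    Nat.cast_sub (Nat.pow_le_pow_left hMN k)]
  push_cast
  have hMN' : (M : ℝ) ≤ N := by exact_mod_cast hMN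
  have hNM' : (N : ℝ) - M ≤ Q := by
    have : (N : ℝ) ≤ M + Q := by exact_mod_cast hNM
    linarith
  have h4 := abs_pow_sub_pow_le (N : ℝ) (M : ℝ) k
  have h5 : max |(N : ℝ)| |(M : ℝ)| = N := by
    rw [abs_of_nonneg (Nat.cast_nonneg _), abs_of_nonneg (Nat.cast_nonneg _), max_eq_left hMN']
  rw [h5, abs_of_nonneg (sub_nonneg.2 hMN')] at h4
  have h6 : (∏ r ∈ S ∪ S', (r : ℝ)) = Q := by
    rw [hQ]; push_cast; rfl
  rw [h6]
  calc (N : ℝ) ^ k - (M : ℝ) ^ k ≤ |(N : ℝ) ^ k - (M : ℝ) ^ k| := le_abs_self _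
    _ ≤ ((N : ℝ) - M) * k * (N : ℝ) ^ (k - 1) := h4
    _ ≤ (Q : ℝ) * k * (N : ℝ) ^ (k - 1) := by gcongr
    _ = k * (Q : ℝ) * (N : ℝ) ^ (k - 1) := by ring

end Pool.Agent.Helper14.PS
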