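import Pool.Agent.Helper14.PS.Classes

/-!
# PS-Pencil: pencils

PROOF.  `family_bound` with `θ = 1 - 2 / (3 m)`, `On t P = ∃ z, OnPencil a b h t P z`, `Bd P r` the set of the `t` for which
`Z ^ m + ∑ v j Z ^ j + ∑ t i Z ^ i` has a root in `ZMod r`, `v` the reductions of the `h j (P)` in the coordinates
`cooR (A : ZMod r) B D` of the chosen integral coordinates of `P` (`exists_irep`, `coo_irep`, `reduce_eq`, `count_param`,
`IRep.cong` + `cooR_scale` exactly as in the proof of `pencil_bound` in Pool/Agent/Helper11/Cov/Pencil.lean; for `r` not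
prime or not `3 mod 4` the set is irrelevant).
-/

set_option autoImplicit false

namespace Pool.Agent.Helper14.PS

open WeierstrassCurve Finset Pool.Agent.Helper11.Cov

theorem pencil_power {n : ℕ} {a b : Fin n → ℤ} (hK : Key5 a b) {m k : ℕ} (hm : 2 ≤ m)
    (hk : k = min (m - 1) 2) : ∃ N₀ : ℕ, ∀ N : ℕ, N₀ ≤ N →
      ∀ (h : Fin m → MvPolynomial (Fin n × Fin 3) ℤ)
        [DecidablePred fun t : Fin k → ℤ => ∃ P z, OnPencil a b h t P z],
        (#{t ∈ Bx k N | ∃ P z, OnPencil a b h t P z} : ℝ) ≤ (N : ℝ) ^ ((k : ℝ) - 1 / 2000) := by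
  classical
  obtain ⟨θ, hθ⟩ : ∃ θ : ℝ, θ = 1 - 2 / (3 * m) := ⟨_, rfl⟩
  have hm' : (2:ℝ) ≤ m := by exact_mod_cast hm
  have hθ0 : 0 ≤ θ := by
    rw [hθ]
    have : 2 / (3 * (m:ℝ)) < 1 := by rw [div_lt_one (by positivity)]; linarith
    linarith
  have hθ1 : θ < 1 := by
    rw [hθ]
    have : 0 < 2 / (3 * (m:ℝ)) := by positivity
    linarith
  obtain ⟨N₀, hN₀⟩ := family_bound hK (k := k) (by omega) hθ0 hθ1
  refine ⟨N₀, fun N hN h _ => ?_⟩
  choose Ac Bc Dc hrep using fun (i : Fin n) (Q : (E (a i) (b i)).Point) => exists_irep Q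
  let vP : (∀ i, (E (a i) (b i)).Point) → ∀ l : ℕ, [Fact l.Prime] → Fin m → ZMod l := fun P l _ j =>
    MvPolynomial.aeval (fun p : Fin n × Fin 3 =>
      cooR (Ac p.1 (P p.1) : ZMod l) (Bc p.1 (P p.1)) (Dc p.1 (P p.1)) p.2) (h j)
  let Bd : (∀ i, (E (a i) (b i)).Point) → ∀ r : ℕ, Finset (Fin k → ZMod r) := fun P r =>
    if hr : r.Prime then
      haveI : Fact r.Prime := ⟨hr⟩
      ({t | ∃ Z, Z ^ m + ∑ i, (vP P r) i * Z ^ (i : ℕ) +
        ∑ i, t i * Z ^ (i : ℕ) = 0} : Finset (Fin k → ZMod r))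
    else ∅
  have key := hN₀ N hN (fun t P => ∃ z, OnPencil a b h t P z) Bd ?_ ?_ ?_
  · exact key
  · -- the number of residues
    intro P r hr h4
    have hF : Fact r.Prime := ⟨hr⟩
    simp only [Bd, dif_pos hr]
    have h3 : 3 ≤ r := by omega
    have h2 : (2 : ZMod r) ≠ 0 := by
      intro h0
      have : ((2 : ℕ) : ZMod r) = 0 := by exact_mod_cast h0
      rw [ZMod.natCast_eq_zero_iff] at this
      have := Nat.le_of_dvd (by norm_num) this
      omega
    have := count_param (F := ZMod r) h2 (by rw [ZMod.card]; exact h3) hm hk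
      (vP P r) {t | ∃ Z, Z ^ m + ∑ i, vP P r i * Z ^ (i : ℕ) +
      ∑ i, t i * Z ^ (i : ℕ) = 0} (fun t ht => (Finset.mem_filter.mp ht).2)
    have h6 := (Nat.cast_le (α := ℝ)).mpr this
    have h7 : 2 ≤ 3 * m := by omega
    push_cast [h7] at h6
    rw [ZMod.card] at h6
    have hm0 : (0:ℝ) < 3 * m := by positivity
    have h8 : θ * (r : ℝ) ^ k = ((3 * m - 2 : ℝ) * (r : ℝ) ^ k) / (3 * m) := by
      rw [hθ]; field_simp
    rw [h8, le_div_iff₀ hm0]
    linarith
  · -- reduction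
    rintro t P r hr h4 ⟨z, hc⟩
    have hF : Fact r.Prime := ⟨hr⟩
    simp only [Bd, dif_pos hr]
    rw [Finset.mem_filter]
    refine ⟨Finset.mem_univ _, ?_⟩
    unfold OnPencil at hc
    have e1 : (fun p : Fin n × Fin 3 => coo p.2 (P p.1)) = fun p : Fin n × Fin 3 =>
        cooR (Ac p.1 (P p.1) : ℚ) (Bc p.1 (P p.1)) (Dc p.1 (P p.1)) p.2 := by
      funext p
      exact coo_irep (hrep p.1 (P p.1)) p.2
    rw [e1] at hc
    exact reduce_eq (l := r) h4 (A := fun i => Ac i (P i)) (B := fun i => Bc i (P i))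
      (D := fun i => Dc i (P i)) (fun i => (hrep i (P i)).1) (by omega) h t hc
  · -- classes
    intro P P' r hF h4 hPP'
    have hr : r.Prime := hF.out
    simp only [Bd, dif_pos hr]
    have e2 : (fun p : Fin n × Fin 3 =>
        cooR (Ac p.1 (P' p.1) : ZMod r) (Bc p.1 (P' p.1)) (Dc p.1 (P' p.1)) p.2) =
        fun p : Fin n × Fin 3 =>
        cooR (Ac p.1 (P p.1) : ZMod r) (Bc p.1 (P p.1)) (Dc p.1 (P p.1)) p.2 := by
      funext p
      obtain ⟨u, hu, hA, hB, hD⟩ := (hrep p.1 (P p.1)).cong (hrep p.1 (P' p.1)) (hPP' p.1)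
      rw [hA, hB, hD, cooR_scale hu]
    simp only [vP]
    rw [e2]

end Pool.Agent.Helper14.PS
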