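import Pool.Agent.Helper14.PS.Classes

/-!
# PS-Twist: quadratic twists `D z ^ 2 = 1 + g (P) ^ 2`

PROOF of `twist_power`.  `family_bound` with `k = 1`, `θ = 2/3`, `On t P = (t 0 ≠ 0 and ∃ z, OnTwist a b g (t 0) P z)`, `Bd P r` the
set of the `t` with `t 0 = 0` or `t 0 * Z ^ 2 = 1 + v ^ 2` soluble in `ZMod r`, `v` the reduction of `g (P)` (as in
`pencil_bound`, Pool/Agent/Helper11/Cov/Pencil.lean).  `1 + v ^ 2 ≠ 0` as `r % 4 = 3`, so `Bd` has `1 + (r - 1) / 2 ≤ (2/3) r` elements.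
`reduce_twist`: if `r ∤ D` then `z` is an `r`-adic unit (`1 + g (P) ^ 2` is one), as in `reduce_eq`.
`exists_onTwist`: as `exists_onPencil`.
-/

open AlgebraicGeometry CategoryTheory

set_option autoImplicit false

namespace Pool.Agent.Helper14.PS

open WeierstrassCurve Finset Pool.Agent.Helper11.Cov

/-- `(P, z)` is a rational point of the cover `D z ^ 2 = 1 + g ^ 2`. -/
def OnTwist {n : ℕ} (a b : Fin n → ℤ) (g : MvPolynomial (Fin n × Fin 3) ℤ) (D : ℤ)
    (P : ∀ i, (E (a i) (b i)).Point) (z : ℚ) : Prop :=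
  (D : ℚ) * z ^ 2 = 1 + (MvPolynomial.aeval (fun p : Fin n × Fin 3 => coo p.2 (P p.1)) g) ^ 2

theorem reduce_twist {n : ℕ} {l : ℕ} [hl : Fact l.Prime] (h4 : l % 4 = 3) {A B D : Fin n → ℤ}
    (hcop : ∀ i, IsCoprime (A i) (D i)) (g : MvPolynomial (Fin n × Fin 3) ℤ) (t : ℤ)
    (ht : (t : ZMod l) ≠ 0) {z : ℚ}
    (hz : (t : ℚ) * z ^ 2 = 1 + (MvPolynomial.aeval (fun p : Fin n × Fin 3 =>
      cooR (A p.1 : ℚ) (B p.1) (D p.1) p.2) g) ^ 2) :
    ∃ Z : ZMod l, (t : ZMod l) * Z ^ 2 = 1 + (MvPolynomial.aeval (fun p : Fin n × Fin 3 =>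
      cooR (A p.1 : ZMod l) (B p.1) (D p.1) p.2) g) ^ 2 := by
  have hun : ∀ u : ℤ, (u : ZMod l) ≠ 0 → ∃ w : ℤ_[l], (u : ℤ_[l]) * w = 1 := by
    intro u h1
    have h2 : IsUnit (u : ℤ_[l]) := by
      rw [PadicInt.isUnit_iff]
      by_contra hc
      have h3 : ‖(u : ℤ_[l])‖ < 1 := lt_of_le_of_ne (PadicInt.norm_le_one _) hc
      rw [PadicInt.norm_int_lt_one_iff_dvd] at h3
      exact h1 ((ZMod.intCast_zmod_eq_zero_iff_dvd _ l).mpr h3)
    exact h2.exists_right_inv
  have hunit : ∀ i, ∃ w : ℤ_[l], ((D i ^ 4 + A i ^ 2 : ℤ) : ℤ_[l]) * w = 1 :=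
    fun i => hun _ (sq_add_ne h4 (hcop i))
  obtain ⟨s, hs⟩ := hun t ht
  choose w hw using hunit
  set U : Fin n × Fin 3 → ℤ_[l] := fun p =>
    ![(D p.1 : ℤ_[l]) ^ 4, (A p.1 : ℤ_[l]) * (D p.1 : ℤ_[l]) ^ 2, (B p.1 : ℤ_[l]) * (D p.1 : ℤ_[l])] p.2
      * w p.1 with hU
  have comp : ∀ {R : Type} [Field R] (φ : ℤ_[l] →+* R) (p : Fin n × Fin 3),
      φ (U p) = cooR (A p.1 : R) (B p.1) (D p.1) p.2 := by
    intro R _ φ p
    obtain ⟨i, j⟩ := p
    have h5 : ((D i : R) ^ 4 + (A i : R) ^ 2) * φ (w i) = 1 := by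
      have := congrArg φ (hw i)
      simpa using this
    have h6 : ((D i : R) ^ 4 + (A i : R) ^ 2) ≠ 0 := left_ne_zero_of_mul_eq_one h5
    have h7 : φ (w i) = ((D i : R) ^ 4 + (A i : R) ^ 2)⁻¹ := by
      rw [eq_inv_of_mul_eq_one_right h5]
    simp only [hU, cooR, map_mul, h7, div_eq_mul_inv]
    congr 1
    fin_cases j <;> simp
  set c : ℤ_[l] →+* ℚ_[l] := PadicInt.Coe.ringHom with hc
  have hz' : (t : ℚ_[l]) * (z : ℚ_[l]) ^ 2 = 1 + (MvPolynomial.aeval (fun p => c (U p)) g) ^ 2 := by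
    have h8 := congrArg (Rat.castHom ℚ_[l]) hz
    simp only [map_add, map_pow, map_mul, map_one, map_intCast, map_aeval_int] at h8
    have h9 : ∀ p : Fin n × Fin 3,
        (Rat.castHom ℚ_[l]) (cooR (A p.1 : ℚ) (B p.1) (D p.1) p.2) = c (U p) := by
      intro p
      rw [comp c p]
      obtain ⟨i, j⟩ := p
      simp only [cooR]
      rw [map_div₀]
      congr 1
      · fin_cases j <;> simp
    simp only [h9] at h8
    exact h8
  have hs' : (t : ℚ_[l]) * c s = 1 := by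
    have := congrArg c hs
    rw [map_mul, map_one, map_intCast] at this
    exact this
  set q : Polynomial ℤ_[l] := Polynomial.X ^ 2 -
    Polynomial.C (s * (1 + (MvPolynomial.aeval U g) ^ 2)) with hq
  have hmonic : q.Monic := Polynomial.monic_X_pow_sub_C _ two_ne_zero
  have hcg : c (MvPolynomial.aeval U g) = MvPolynomial.aeval (fun p => c (U p)) g :=
    map_aeval_int c U g
  have hroot : Polynomial.aeval (z : ℚ_[l]) q = 0 := by
    rw [hq, map_sub, map_pow, Polynomial.aeval_X, Polynomial.aeval_C]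
    have h10 : (algebraMap ℤ_[l] ℚ_[l]) (s * (1 + (MvPolynomial.aeval U g) ^ 2))
        = c s * (1 + (MvPolynomial.aeval (fun p => c (U p)) g) ^ 2) := by
      change c (s * (1 + (MvPolynomial.aeval U g) ^ 2)) = _
      rw [map_mul, map_add, map_one, map_pow, hcg]
    rw [h10, ← hz']
    linear_combination (- (z : ℚ_[l]) ^ 2) * hs'
  obtain ⟨Z, hZ⟩ := isInteger_of_is_root_of_monic hmonic hroot
  have hZq : q.eval Z = 0 := by
    have hinj : Function.Injective (algebraMap ℤ_[l] ℚ_[l]) := IsFractionRing.injective _ _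
    apply hinj
    rw [map_zero, ← hroot, ← hZ, Polynomial.aeval_algebraMap_apply, Polynomial.coe_aeval_eq_eval]
  have hZt : (t : ℤ_[l]) * Z ^ 2 = 1 + (MvPolynomial.aeval U g) ^ 2 := by
    rw [hq, Polynomial.eval_sub, Polynomial.eval_pow, Polynomial.eval_X, Polynomial.eval_C] at hZq
    linear_combination (t : ℤ_[l]) * hZq + (1 + (MvPolynomial.aeval U g) ^ 2) * hs
  refine ⟨PadicInt.toZMod Z, ?_⟩
  have := congrArg (PadicInt.toZMod (p := l)) hZt
  simp only [map_add, map_pow, map_mul, map_one, map_intCast, map_aeval_int, comp] at this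
  exact this

/-- half of the nonzero `t` have `t * Z ^ 2 = c` soluble -/
theorem count_tw {F : Type*} [Field F] [Fintype F] [DecidableEq F] (h2 : (2 : F) ≠ 0) {c : F}
    (hc : c ≠ 0) (S : Finset F) (hS : ∀ t ∈ S, t ≠ 0 ∧ ∃ Z, t * Z ^ 2 = c) :
    2 * #S + 1 ≤ Fintype.card F := by
  set S' : Finset F := (Finset.univ.erase 0).image (fun Z => c / Z ^ 2) with hS'
  have hsub : S ⊆ S' := by
    intro t ht
    obtain ⟨ht0, Z, hZ⟩ := hS t ht
    have hZ0 : Z ≠ 0 := by
      rintro rfl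
      exact hc (by rw [← hZ]; ring)
    rw [hS', Finset.mem_image]
    refine ⟨Z, Finset.mem_erase.2 ⟨hZ0, Finset.mem_univ _⟩, ?_⟩
    rw [← hZ, mul_div_cancel_right₀ _ (pow_ne_zero 2 hZ0)]
  have h3 : 2 * #S' ≤ #(Finset.univ.erase (0 : F)) := by
    refine Finset.mul_card_image_le_card_of_maps_to (f := fun Z => c / Z ^ 2)
      (fun Z hZ => Finset.mem_image_of_mem (fun Z => c / Z ^ 2) hZ) 2 ?_
    intro t ht
    obtain ⟨Z, hZ, rfl⟩ := Finset.mem_image.1 ht
    have hZ0 : Z ≠ 0 := (Finset.mem_erase.1 hZ).1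
    have hne : Z ≠ -Z := by
      intro h
      have : 2 * Z = 0 := by linear_combination h
      exact hZ0 ((mul_eq_zero.1 this).resolve_left h2)
    refine (Finset.card_pair hne).ge.trans (Finset.card_le_card ?_)
    intro W hW
    rw [Finset.mem_insert, Finset.mem_singleton] at hW
    rw [Finset.mem_filter, Finset.mem_erase]
    rcases hW with rfl | rfl
    · exact ⟨⟨hZ0, Finset.mem_univ _⟩, rfl⟩
    · exact ⟨⟨neg_ne_zero.2 hZ0, Finset.mem_univ _⟩, by rw [neg_sq]⟩
  have h4 : #(Finset.univ.erase (0 : F)) + 1 = Fintype.card F := by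
    rw [Finset.card_erase_add_one (Finset.mem_univ _), Finset.card_univ]
  have h5 := Finset.card_le_card hsub
  omega

theorem twist_power {n : ℕ} {a b : Fin n → ℤ} (hK : Key5 a b) : ∃ N₀ : ℕ, ∀ N : ℕ, N₀ ≤ N →
      ∀ (g : MvPolynomial (Fin n × Fin 3) ℤ)
        [DecidablePred fun D : ℤ => ∃ P z, OnTwist a b g D P z],
        (#{D ∈ Finset.Icc (1 : ℤ) N | ∃ P z, OnTwist a b g D P z} : ℝ) ≤
          2 * (N : ℝ) ^ (1 - 1 / 2000 : ℝ) := by
  classical
  obtain ⟨N₀, hN₀⟩ := family_bound hK (k := 1) le_rfl (θ := 2 / 3) (by norm_num) (by norm_num)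
  refine ⟨max N₀ 1, fun N hN g _ => ?_⟩
  have hN1 : 1 ≤ N := (le_max_right _ _).trans hN
  choose Ac Bc Dc hrep using fun (i : Fin n) (Q : (E (a i) (b i)).Point) => exists_irep Q
  let vP : (∀ i, (E (a i) (b i)).Point) → ∀ l : ℕ, [Fact l.Prime] → ZMod l := fun P l _ =>
    MvPolynomial.aeval (fun p : Fin n × Fin 3 =>
      cooR (Ac p.1 (P p.1) : ZMod l) (Bc p.1 (P p.1)) (Dc p.1 (P p.1)) p.2) g
  let Bd : (∀ i, (E (a i) (b i)).Point) → ∀ r : ℕ, Finset (Fin 1 → ZMod r) := fun P r =>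
    if hr : r.Prime then
      (haveI : Fact r.Prime := ⟨hr⟩
       Finset.univ.filter fun t : Fin 1 → ZMod r => t 0 = 0 ∨ ∃ Z, t 0 * Z ^ 2 = 1 + (vP P r) ^ 2)
    else ∅
  have hBd : ∀ P (r : ℕ) [hr : Fact r.Prime] (t : Fin 1 → ZMod r),
      t ∈ Bd P r ↔ (t 0 = 0 ∨ ∃ Z, t 0 * Z ^ 2 = 1 + (vP P r) ^ 2) := by
    intro P r hr t
    simp only [Bd, dif_pos hr.out, Finset.mem_filter, Finset.mem_univ, true_and]
  have hneg : ∀ (r : ℕ) [Fact r.Prime], r % 4 = 3 → ∀ v : ZMod r, 1 + v ^ 2 ≠ 0 := by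
    intro r _ h4 v hv
    have : IsSquare (-1 : ZMod r) := ⟨v, by linear_combination -hv⟩
    exact (ZMod.exists_sq_eq_neg_one_iff.mp this) h4
  have key := hN₀ N ((le_max_left _ _).trans hN)
    (fun t P => t 0 ≠ 0 ∧ ∃ z, OnTwist a b g (t 0) P z) Bd ?_ ?_ ?_
  · have hset : {D ∈ Finset.Icc (1 : ℤ) N | ∃ P z, OnTwist a b g D P z} ⊆
        insert (N : ℤ) (({t ∈ Bx 1 N | ∃ P, t 0 ≠ 0 ∧ ∃ z, OnTwist a b g (t 0) P z}).image
          fun t => t 0) := by
      intro D hD
      rw [Finset.mem_filter, Finset.mem_Icc] at hD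
      obtain ⟨⟨h1, h2⟩, P, z, hz⟩ := hD
      rw [Finset.mem_insert]
      by_cases h3 : D = N
      · exact Or.inl h3
      · right
        rw [Finset.mem_image]
        refine ⟨fun _ => D, ?_, rfl⟩
        rw [Finset.mem_filter, mem_Bx]
        exact ⟨fun _ => ⟨by omega, by omega⟩, P, by
          change D ≠ 0
          omega, z, hz⟩
    have hle := (Finset.card_le_card hset).trans ((Finset.card_insert_le _ _).trans
      (Nat.add_le_add_right Finset.card_image_le 1))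
    have hle' : (#{D ∈ Finset.Icc (1 : ℤ) N | ∃ P z, OnTwist a b g D P z} : ℝ) ≤
        (#{t ∈ Bx 1 N | ∃ P, t 0 ≠ 0 ∧ ∃ z, OnTwist a b g (t 0) P z} : ℝ) + 1 := by
      exact_mod_cast hle
    have h1 : (1 : ℝ) ≤ (N : ℝ) ^ (1 - 1 / 2000 : ℝ) :=
      Real.one_le_rpow (by exact_mod_cast hN1) (by norm_num)
    have h2 : ((1 : ℕ) : ℝ) - 1 / 2000 = 1 - 1 / 2000 := by norm_num
    rw [h2] at key
    linarith
  · intro P r hr h4
    have : Fact r.Prime := ⟨hr⟩
    have h3 : 3 ≤ r := by omega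
    have h2 : (2 : ZMod r) ≠ 0 := by
      intro h0
      have : ((2 : ℕ) : ZMod r) = 0 := by exact_mod_cast h0
      rw [ZMod.natCast_eq_zero_iff] at this
      have := Nat.le_of_dvd (by norm_num) this
      omega
    have hc := count_tw h2 (hneg r h4 (vP P r))
      (Finset.univ.filter fun t : ZMod r => t ≠ 0 ∧ ∃ Z, t * Z ^ 2 = 1 + (vP P r) ^ 2)
      (fun t ht => (Finset.mem_filter.1 ht).2)
    rw [ZMod.card] at hc
    have hle : #(Bd P r) ≤ #(insert 0 (Finset.univ.filter fun t : ZMod r =>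
        t ≠ 0 ∧ ∃ Z, t * Z ^ 2 = 1 + (vP P r) ^ 2)) := by
      refine Finset.card_le_card_of_injOn (fun t => t 0) ?_ ?_
      · intro t ht
        rw [Finset.mem_coe, hBd] at ht
        rw [Finset.mem_coe, Finset.mem_insert, Finset.mem_filter]
        by_cases h0 : t 0 = 0
        · exact Or.inl h0
        · exact Or.inr ⟨Finset.mem_univ _, h0, ht.resolve_left h0⟩
      · intro t _ t' _ h
        funext i
        rw [Subsingleton.elim i 0]; exact h
    have hle2 := hle.trans (Finset.card_insert_le _ _)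
    have hle3 : 2 * #(Bd P r) ≤ r + 1 := by omega
    have hle4 : (2 : ℝ) * #(Bd P r) ≤ r + 1 := by exact_mod_cast hle3
    have h3' : (3 : ℝ) ≤ r := by exact_mod_cast h3
    rw [pow_one]
    linarith
  · rintro t P r hr h4 ⟨ht0, z, hz⟩
    have : Fact r.Prime := ⟨hr⟩
    rw [hBd]
    by_cases h0 : ((t 0 : ℤ) : ZMod r) = 0
    · exact Or.inl h0
    · right
      unfold OnTwist at hz
      have e1 : (fun p : Fin n × Fin 3 => coo p.2 (P p.1)) = fun p : Fin n × Fin 3 =>
          cooR (Ac p.1 (P p.1) : ℚ) (Bc p.1 (P p.1)) (Dc p.1 (P p.1)) p.2 := by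
        funext p
        exact coo_irep (hrep p.1 (P p.1)) p.2
      rw [e1] at hz
      exact reduce_twist (l := r) h4 (A := fun i => Ac i (P i)) (B := fun i => Bc i (P i))
        (D := fun i => Dc i (P i)) (fun i => (hrep i (P i)).1) g (t 0) h0 hz
  · intro P P' r hr h4 hH
    have e2 : (fun p : Fin n × Fin 3 =>
        cooR (Ac p.1 (P' p.1) : ZMod r) (Bc p.1 (P' p.1)) (Dc p.1 (P' p.1)) p.2) =
        fun p : Fin n × Fin 3 =>
        cooR (Ac p.1 (P p.1) : ZMod r) (Bc p.1 (P p.1)) (Dc p.1 (P p.1)) p.2 := by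
      funext p
      obtain ⟨u, hu, hA, hB, hD⟩ := (hrep p.1 (P p.1)).cong (hrep p.1 (P' p.1)) (hH p.1)
      rw [hA, hB, hD, cooR_scale hu]
    have e3 : vP P' r = vP P r := by
      simp only [vP]
      rw [e2]
    ext t
    rw [hBd, hBd, e3]

theorem exists_onTwist {n : ℕ} {a b : Fin n → ℤ} (hg : ∀ i, Good (a i) (b i))
    {g : MvPolynomial (Fin n × Fin 3) ℤ} {D : ℤ} {V : Scheme.{0}} [IsIntegral V]
    (f : V ⟶ Spec (CommRingCat.of ℚ)) (x y : Fin n → V.functionField) (z : V.functionField)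
    (hxy : ∀ i, y i ^ 2 = x i ^ 3 + (a i : V.functionField) * x i + (b i : V.functionField))
    (hz : (D : V.functionField) * z ^ 2 = 1 + (MvPolynomial.aeval (fun p : Fin n × Fin 3 =>
      ![1, x p.1, y p.1] p.2 / (1 + x p.1 ^ 2)) g) ^ 2)
    (hdense : Dense (Pool.Agent.Helper11.rationalPoints f)) : ∃ P z, OnTwist a b g D P z := by
  obtain ⟨R, _, ι, v, φ, hinj, hv⟩ := exists_specialisation_fintype f
    (α := Option (Fin n × Fin 3)) (fun o => match o with
      | none => z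
      | some (i, 0) => x i
      | some (i, 1) => y i
      | some (i, 2) => 1 / (1 + x i ^ 2)) hdense
  have vz : ι (v none) = z := hv none
  have vx : ∀ i, ι (v (some (i, 0))) = x i := fun i => hv (some (i, 0))
  have vy : ∀ i, ι (v (some (i, 1))) = y i := fun i => hv (some (i, 1))
  have vu : ∀ i, ι (v (some (i, 2))) = 1 / (1 + x i ^ 2) := fun i => hv (some (i, 2))
  have hne : ∀ i, (1 + x i ^ 2 : V.functionField) ≠ 0 := by
    intro i h0
    have e : 1 + v (some (i, 0)) ^ 2 = 0 := by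
      apply hinj
      simp only [map_add, map_one, map_pow, vx, map_zero]
      exact h0
    have := congrArg φ e
    simp only [map_add, map_one, map_pow, map_zero] at this
    nlinarith [sq_nonneg (φ (v (some (i, 0))))]
  have e1 : ∀ i, v (some (i, 1)) ^ 2 = v (some (i, 0)) ^ 3 + (a i : R) * v (some (i, 0)) +
      (b i : R) := by
    intro i
    apply hinj
    simp only [map_pow, map_add, map_mul, map_intCast, vx, vy]
    exact hxy i
  have e3 : ∀ i, v (some (i, 2)) * (1 + v (some (i, 0)) ^ 2) = 1 := by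
    intro i
    apply hinj
    simp only [map_pow, map_add, map_mul, map_one, vx, vu]
    rw [one_div, inv_mul_cancel₀ (hne i)]
  have e2 : (D : R) * v none ^ 2 = 1 + (MvPolynomial.aeval (fun p : Fin n × Fin 3 =>
      ![1, v (some (p.1, 0)), v (some (p.1, 1))] p.2 * v (some (p.1, 2))) g) ^ 2 := by
    apply hinj
    simp only [map_pow, map_add, map_mul, map_intCast, map_one, vz, map_aeval_int]
    rw [hz]
    have : (fun p : Fin n × Fin 3 => ι (![1, v (some (p.1, 0)), v (some (p.1, 1))] p.2) *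
        ι (v (some (p.1, 2)))) = fun p : Fin n × Fin 3 =>
      ![1, x p.1, y p.1] p.2 / (1 + x p.1 ^ 2) := by
      funext p
      obtain ⟨i, j⟩ := p
      rw [vu, mul_one_div]
      congr 1
      fin_cases j
      · simp
      · simpa using vx i
      · simpa using vy i
    rw [this]
  have f1 : ∀ i, (φ (v (some (i, 1)))) ^ 2 = (φ (v (some (i, 0)))) ^ 3 +
      (a i : ℚ) * φ (v (some (i, 0))) + (b i : ℚ) := by
    intro i
    have := congrArg φ (e1 i)
    simpa only [map_pow, map_add, map_mul, map_intCast] using this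
  choose P hP using fun i => exists_at (hg i) (f1 i)
  refine ⟨P, φ (v none), ?_⟩
  have f2 := congrArg φ e2
  simp only [map_pow, map_add, map_mul, map_intCast, map_one, map_aeval_int] at f2
  unfold OnTwist
  rw [f2]
  have : (fun p : Fin n × Fin 3 => coo p.2 (P p.1)) = fun p : Fin n × Fin 3 =>
      φ (![1, v (some (p.1, 0)), v (some (p.1, 1))] p.2) * φ (v (some (p.1, 2))) := by
    funext p
    obtain ⟨i, j⟩ := p
    obtain ⟨hns, hh⟩ := hP i
    have f3 := congrArg φ (e3 i)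
    simp only [map_mul, map_add, map_one, map_pow] at f3
    have f4 : φ (v (some (i, 2))) = 1 / (1 + φ (v (some (i, 0))) ^ 2) := by
      rw [one_div, eq_inv_of_mul_eq_one_left f3]
    simp only
    rw [hh, f4, ← div_eq_mul_one_div]
    fin_cases j <;> simp [coo]
  rw [this]

end Pool.Agent.Helper14.PS
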