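import Pool.Agent.Helper11.Cov.SS4
import Pool.Agent.Helper14.PS.Pencil
import Pool.Agent.Helper14.PS.Twist

/-!
# Pencils of covers of products of elliptic curves with complex multiplication

Let `A = E₁ × … × Eₙ`, where each `Eᵢ` is an elliptic curve `y² = x³ + aᵢ x + bᵢ` over `ℚ` of arbitrary
Mordell-Weil rank with `aᵢ = 0` or `bᵢ = 0`, or which has `r + 1` points modulo all large primes `r`
congruent to `-1` modulo some integer (by Deuring this holds for all elliptic curves over `ℚ` with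
complex multiplication).  Let `h` be any polynomial with integral coefficients
in the functions `1 / (1 + xᵢ²)`, `xᵢ / (1 + xᵢ²)` and `yᵢ / (1 + xᵢ²)` on `A`.  We show that for all
but at most `N ^ (1 - 1/2000)` of the integers `t` in `{0, …, N - 1}` the double cover `z² = h + t` of
`A` has no rational point, for `N ≥ N₀`, where `N₀` depends on `A` only.  The same is true for the
quadratic twists `D z² = 1 + h²`, `1 ≤ D ≤ N`.  For covers `z ^ m + h_(m - 1) z ^ (m - 1) + … + h_0 = 0` of degree `m ≥ 3` the same is true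
for the two-parameter family in which `h_0` and `h_1` are replaced by `h_0 + t_0` and `h_1 + t_1`.
-/

open AlgebraicGeometry CategoryTheory

namespace Pool.Agent.Helper14.PS.ResultDraft

/-- The curve `y² = x³ + a x + b` over `ℚ`. -/
abbrev E (a b : ℤ) : WeierstrassCurve.Affine ℚ := ⟨0, 0, 0, a, b⟩

/-- There is `m` such that the curve `y² = x³ + a x + b` has exactly `r` affine points (so `r + 1`
points) modulo all large primes `r` that are congruent to `-1` modulo `m`. By Deuring this holds for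
all elliptic curves with complex multiplication. -/
def Supersingular (a b : ℤ) : Prop :=
  ∃ m B : ℕ, 0 < m ∧ ∀ r : ℕ, r.Prime → B < r → m ∣ r + 1 →
    Nat.card {p : ZMod r × ZMod r //
      p.2 ^ 2 = p.1 ^ 3 + (a : ZMod r) * p.1 + (b : ZMod r)} = r

/-- The values at a rational point of the functions `1 / (1 + x²)`, `x / (1 + x²)`, `y / (1 + x²)`
(for `j = 0, 1, 2`).  They are regular at the origin (point at infinity), with value `0`. -/
def coord {a b : ℤ} (j : Fin 3) : (E a b).Point → ℚ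
  | 0 => 0
  | .some x y _ => ![1, x, y] j / (1 + x ^ 2)

/-- `(P, z)` is a rational point of the cover `z ^ m + ∑ j, h j * z ^ j + ∑ i, t i * z ^ i = 0` of
the product of the curves `y² = x³ + a i x + b i`, where `h j` is a polynomial in the `3 n` functions
`1 / (1 + xᵢ²)`, `xᵢ / (1 + xᵢ²)`, `yᵢ / (1 + xᵢ²)`.  The component `P i` of `P` may be the origin. -/
def IsPoint {n m k : ℕ} (a b : Fin n → ℤ) (h : Fin m → MvPolynomial (Fin n × Fin 3) ℤ)
    (t : Fin k → ℤ) (P : ∀ i, (E (a i) (b i)).Point) (z : ℚ) : Prop :=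
  z ^ m + ∑ j, MvPolynomial.aeval (fun p : Fin n × Fin 3 => coord p.2 (P p.1)) (h j) * z ^ (j : ℕ) +
    ∑ i, (t i : ℚ) * z ^ (i : ℕ) = 0

/-- `(P, z)` is a rational point of the cover `D z ^ 2 = 1 + h ^ 2` of the product of the curves
`y² = x³ + a i x + b i`. -/
def IsTwistPoint {n : ℕ} (a b : Fin n → ℤ) (h : MvPolynomial (Fin n × Fin 3) ℤ) (D : ℤ)
    (P : ∀ i, (E (a i) (b i)).Point) (z : ℚ) : Prop :=
  (D : ℚ) * z ^ 2 = 1 + (MvPolynomial.aeval (fun p : Fin n × Fin 3 => coord p.2 (P p.1)) h) ^ 2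

/-- The set `V(ℚ)` of rational points of a scheme `V` over `ℚ`, as a set of points of `V`: the
images of the sections of the structure morphism. -/
def rationalPoints {V : Scheme.{0}} (f : V ⟶ Spec (CommRingCat.of ℚ)) : Set V :=
  {P | ∃ s : Spec (CommRingCat.of ℚ) ⟶ V, s ≫ f = 𝟙 _ ∧ s (IsLocalRing.closedPoint ℚ) = P}

/-- **Main theorem.**  Let `Eᵢ` be elliptic curves `y² = x³ + aᵢ x + bᵢ` over `ℚ` of arbitrary rank
with `aᵢ = 0` or `bᵢ = 0` or the property `Supersingular`, let `m ≥ 2` and `k = min (m - 1, 2)`.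

(1) To every `m`-tuple `h` of integral polynomials in the functions `1 / (1 + xᵢ²)`, `xᵢ / (1 + xᵢ²)`,
`yᵢ / (1 + xᵢ²)` one can attach a set `B h` of exceptional parameters such that `B h` has at most
`N ^ (k - 1/2000)` elements in the box `{0, …, N - 1} ^ k` for all `N ≥ N₀`, where `N₀` does not depend on
`h`, and for all `t ∉ B h` the cover `z ^ m + ∑ j, h j * z ^ j + ∑ i < k, t i * z ^ i = 0` of `A = ∏ Eᵢ` has no
rational point, and an integral scheme `V` over `ℚ` whose function field contains elements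
`xᵢ, yᵢ, z` satisfying the equations of the cover does not have a dense set of rational points.

(2) The same for the quadratic twists `D z ^ 2 = 1 + h ^ 2`, `1 ≤ D ≤ N`, with at most
`2 N ^ (1 - 1/2000)` exceptions. -/
theorem result (n : ℕ) (a b : Fin n → ℤ) (hab : ∀ i, 4 * a i ^ 3 + 27 * b i ^ 2 ≠ 0)
    (hss : ∀ i, a i = 0 ∨ b i = 0 ∨ Supersingular (a i) (b i)) :
    (∀ m k : ℕ, 2 ≤ m → k = min (m - 1) 2 →
      ∃ N₀ : ℕ, ∃ B : (Fin m → MvPolynomial (Fin n × Fin 3) ℤ) → Set (Fin k → ℤ),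
        (∀ N ≥ N₀, ∀ h : Fin m → MvPolynomial (Fin n × Fin 3) ℤ,
          (Nat.card {t : Fin k → ℤ // t ∈ B h ∧ ∀ i, 0 ≤ t i ∧ t i < N} : ℝ) ≤
            (N : ℝ) ^ ((k : ℝ) - 1 / 2000)) ∧
        ∀ h, ∀ t ∉ B h,
          (∀ (P : ∀ i, (E (a i) (b i)).Point) (z : ℚ), ¬ IsPoint a b h t P z) ∧
          ∀ (V : Scheme.{0}) [IsIntegral V] (f : V ⟶ Spec (CommRingCat.of ℚ))
            (x y : Fin n → V.functionField) (z : V.functionField),
            (∀ i, y i ^ 2 = x i ^ 3 + (a i : V.functionField) * x i + (b i : V.functionField)) →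
            z ^ m + ∑ j, MvPolynomial.aeval (fun p : Fin n × Fin 3 =>
                ![1, x p.1, y p.1] p.2 / (1 + x p.1 ^ 2)) (h j) * z ^ (j : ℕ) +
              ∑ i, (t i : V.functionField) * z ^ (i : ℕ) = 0 →
            ¬ Dense (rationalPoints f)) ∧
    ∃ N₀ : ℕ, ∃ B : MvPolynomial (Fin n × Fin 3) ℤ → Set ℤ,
      (∀ N ≥ N₀, ∀ h : MvPolynomial (Fin n × Fin 3) ℤ,
        (Nat.card {D : ℤ // D ∈ B h ∧ 1 ≤ D ∧ D ≤ N} : ℝ) ≤ 2 * (N : ℝ) ^ (1 - 1 / 2000 : ℝ)) ∧
      ∀ h, ∀ D ∉ B h,
        (∀ (P : ∀ i, (E (a i) (b i)).Point) (z : ℚ), ¬ IsTwistPoint a b h D P z) ∧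
        ∀ (V : Scheme.{0}) [IsIntegral V] (f : V ⟶ Spec (CommRingCat.of ℚ))
          (x y : Fin n → V.functionField) (z : V.functionField),
          (∀ i, y i ^ 2 = x i ^ 3 + (a i : V.functionField) * x i + (b i : V.functionField)) →
          (D : V.functionField) * z ^ 2 = 1 + (MvPolynomial.aeval (fun p : Fin n × Fin 3 =>
              ![1, x p.1, y p.1] p.2 / (1 + x p.1 ^ 2)) h) ^ 2 →
          ¬ Dense (rationalPoints f) := by
  classical
  have hco : ∀ (a b : ℤ) (j : Fin 3) (Q : (E a b).Point), coord j Q =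
      Pool.Agent.Helper11.Cov.coo j Q := by
    intro a b j Q
    cases Q <;> rfl
  have hg : ∀ i, Pool.Agent.Helper11.Cov.Good (a i) (b i) := hab
  have hss' : ∀ i, Pool.Agent.Helper6.CI.Supersingular (a i) (b i) := fun i =>
    Pool.Agent.Helper11.Cov.supersingular_of (hab i) (hss i)
  have hK := Pool.Agent.Helper14.PS.key5_ss a b hg hss'
  refine ⟨fun m k hm hk => ?_, ?_⟩
  · have hiff : ∀ (h : Fin m → MvPolynomial (Fin n × Fin 3) ℤ) (t : Fin k → ℤ) P z,
        IsPoint a b h t P z ↔ Pool.Agent.Helper11.Cov.OnPencil a b h t P z := by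
      intro h t P z
      unfold IsPoint Pool.Agent.Helper11.Cov.OnPencil
      simp only [hco]
    obtain ⟨N₀, hN₀⟩ := Pool.Agent.Helper14.PS.pencil_power hK hm hk
    refine ⟨N₀, fun h => {t | ∃ P z, Pool.Agent.Helper11.Cov.OnPencil a b h t P z}, ?_, ?_⟩
    · intro N hN h
      have h1 := hN₀ N hN h
      have h2 : Nat.card {t : Fin k → ℤ // t ∈ {t | ∃ P z, Pool.Agent.Helper11.Cov.OnPencil a b h t P z} ∧
          ∀ i, 0 ≤ t i ∧ t i < (N : ℤ)} ≤
          ((Pool.Agent.Helper14.PS.Bx k N).filter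
            (fun t => ∃ P z, Pool.Agent.Helper11.Cov.OnPencil a b h t P z)).card := by
        have h3 := Nat.card_le_card_of_injective
          (fun t : {t : Fin k → ℤ // t ∈ {t | ∃ P z, Pool.Agent.Helper11.Cov.OnPencil a b h t P z} ∧
            ∀ i, 0 ≤ t i ∧ t i < (N : ℤ)} => (⟨t.1, by
            rw [Finset.mem_filter, Pool.Agent.Helper14.PS.mem_Bx]
            exact ⟨t.2.2, t.2.1⟩⟩ : ↥((Pool.Agent.Helper14.PS.Bx k N).filter
            (fun t => ∃ P z, Pool.Agent.Helper11.Cov.OnPencil a b h t P z))))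
          (fun t t' htt => Subtype.ext (by simpa using congrArg Subtype.val htt))
        refine h3.trans (le_of_eq ?_)
        rw [Nat.card_eq_fintype_card, Fintype.card_coe]
      exact le_trans (by exact_mod_cast h2) h1
    · intro h t ht
      refine ⟨fun P z hp => ht ⟨P, z, (hiff h t P z).mp hp⟩, ?_⟩
      intro V _ f x y z hxy hz hdense
      exact ht (Pool.Agent.Helper11.Cov.exists_onPencil hg f x y z hxy hz hdense)
  · have hiff : ∀ (h : MvPolynomial (Fin n × Fin 3) ℤ) (D : ℤ) P z,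
        IsTwistPoint a b h D P z ↔ Pool.Agent.Helper14.PS.OnTwist a b h D P z := by
      intro h D P z
      unfold IsTwistPoint Pool.Agent.Helper14.PS.OnTwist
      simp only [hco]
    obtain ⟨N₀, hN₀⟩ := Pool.Agent.Helper14.PS.twist_power hK
    refine ⟨N₀, fun h => {D | ∃ P z, Pool.Agent.Helper14.PS.OnTwist a b h D P z}, ?_, ?_⟩
    · intro N hN h
      have h1 := hN₀ N hN h
      have h2 : Nat.card {D : ℤ // D ∈ {D | ∃ P z, Pool.Agent.Helper14.PS.OnTwist a b h D P z} ∧
          1 ≤ D ∧ D ≤ (N : ℤ)} ≤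
          ((Finset.Icc (1 : ℤ) N).filter
            (fun D => ∃ P z, Pool.Agent.Helper14.PS.OnTwist a b h D P z)).card := by
        have h3 := Nat.card_le_card_of_injective
          (fun D : {D : ℤ // D ∈ {D | ∃ P z, Pool.Agent.Helper14.PS.OnTwist a b h D P z} ∧
            1 ≤ D ∧ D ≤ (N : ℤ)} => (⟨D.1, by
            rw [Finset.mem_filter, Finset.mem_Icc]
            exact ⟨D.2.2, D.2.1⟩⟩ : ↥((Finset.Icc (1 : ℤ) N).filter
            (fun D => ∃ P z, Pool.Agent.Helper14.PS.OnTwist a b h D P z))))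
          (fun t t' htt => Subtype.ext (by simpa using congrArg Subtype.val htt))
        refine h3.trans (le_of_eq ?_)
        rw [Nat.card_eq_fintype_card, Fintype.card_coe]
      exact le_trans (by exact_mod_cast h2) h1
    · intro h D hD
      refine ⟨fun P z hp => hD ⟨P, z, (hiff h D P z).mp hp⟩, ?_⟩
      intro V _ f x y z hxy hz hdense
      exact hD (Pool.Agent.Helper14.PS.exists_onTwist hg f x y z hxy hz hdense)

end Pool.Agent.Helper14.PS.ResultDraft
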