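import Pool.Agent.Helper11.Cov.SS4
import Pool.Agent.Helper11.Cov.Geo2
import Pool.Agent.Helper14.PS.Covers

/-!
# Almost all covers of products of elliptic curves with complex multiplication have no rational point

Let `A = E₁ × … × Eₙ`, where each `Eᵢ` is an elliptic curve `y² = x³ + aᵢ x + bᵢ` over `ℚ` of arbitrary
Mordell-Weil rank with `aᵢ = 0` or `bᵢ = 0`, or which has `r + 1` points modulo all large primes `r`
congruent to `-1` modulo some integer (by Deuring this holds for all elliptic curves over `ℚ` with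
complex multiplication).  Let `m ≥ 2` and `d₁, …, dₙ ≥ 1`, and let
`L = O(∑ dᵢ Oᵢ)` on `A`, where `Oᵢ` is the divisor of points whose `i`-th component is the origin.
For sections `F_k` of `L^k`, `1 ≤ k ≤ m`, consider the cover
`V : z ^ m + F₁ z ^ (m - 1) + … + F_m = 0` of degree `m` of `A`.  We show that the
variety `V` has no rational point for almost all tuples `(F₁, …, F_m)` of integral linear combinations
of the monomials `∏ xᵢ ^ jᵢ yᵢ ^ eᵢ` (in a given set `S` of monomials): in every box of side `N ≥ N₀` in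
`ℤ ^ S` there are at most `N ^ (|S| - 1/2000)` exceptions.
-/

open AlgebraicGeometry CategoryTheory

namespace Pool.Agent.Helper14.PS.ResultDraftC

/-- The curve `y² = x³ + a x + b` over `ℚ`. -/
abbrev E (a b : ℤ) : WeierstrassCurve.Affine ℚ := ⟨0, 0, 0, a, b⟩

/-- There is `m` such that the curve `y² = x³ + a x + b` has exactly `r` affine points (so `r + 1`
points) modulo all large primes `r` that are congruent to `-1` modulo `m`. By Deuring this holds for
all elliptic curves with complex multiplication. -/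
def Supersingular (a b : ℤ) : Prop :=
  ∃ m B : ℕ, 0 < m ∧ ∀ r : ℕ, r.Prime → B < r → m ∣ r + 1 →
    Nat.card {p : ZMod r × ZMod r //
      p.2 ^ 2 = p.1 ^ 3 + (a : ZMod r) * p.1 + (b : ZMod r)} = r

/-- The value at a rational point of `x ^ j * y ^ e`, considered as a section of the line bundle
`O(w·O)` on `E`, where `2 j + 3 e ≤ w`.  At the origin `O` (point at infinity), where `x ^ j * y ^ e`
has a pole of order `2 j + 3 e`, this is the coefficient of the pole of order `w`. -/
def value {a b : ℤ} (w j e : ℕ) : (E a b).Point → ℚ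
  | 0 => if 2 * j + 3 * e = w then 1 else 0
  | .some x y _ => x ^ j * y ^ e

/-- `(P, z)` is a rational point of the cover
`z ^ m + ∑ (k, μ) ∈ S, c (k, μ) * (∏ i, x_i ^ (μ i).1 * y_i ^ (μ i).2) * z ^ (m - k) = 0` of the
product of the curves `y² = x³ + a i x + b i`. The component `P i` of `P` may be the origin. -/
def IsPoint {n : ℕ} (a b : Fin n → ℤ) (m : ℕ) (d : Fin n → ℕ) (S : Finset (ℕ × (Fin n → ℕ × ℕ)))
    (c : S → ℤ) (P : ∀ i, (E (a i) (b i)).Point) (z : ℚ) : Prop :=
  z ^ m + ∑ s : S, (c s : ℚ) *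
    (∏ i, value (s.1.1 * d i) (s.1.2 i).1 (s.1.2 i).2 (P i)) * z ^ (m - s.1.1) = 0

/-- The condition on the set `S` of monomials `(k, μ)`, standing for
`∏ i, x_i ^ (μ i).1 * y_i ^ (μ i).2 * z ^ (m - k)`: for `1 ≤ k ≤ m` they are sections of `L ^ k`, and
for `k = m` (if `m ≥ 3` also for `k = m - 1`) `S` contains for each set `A` of indices a monomial
which is constant in the variables with index outside `A`, and has the maximal possible pole order
`k * d i` in the variables with index `i ∈ A`. -/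
def Admissible {n : ℕ} (m : ℕ) (d : Fin n → ℕ) (S : Finset (ℕ × (Fin n → ℕ × ℕ))) : Prop :=
  (∀ s ∈ S, 1 ≤ s.1 ∧ s.1 ≤ m ∧ ∀ i, 2 * (s.2 i).1 + 3 * (s.2 i).2 ≤ s.1 * d i) ∧
  ∀ k, (k = m ∨ k + 1 = m ∧ 2 < m) → ∀ A : Finset (Fin n), ∃ s ∈ S, s.1 = k ∧
    ∀ i, if i ∈ A then 2 * (s.2 i).1 + 3 * (s.2 i).2 = k * d i else s.2 i = (0, 0)

/-- The set `V(ℚ)` of rational points of a scheme `V` over `ℚ`, as a set of points of `V`: the
images of the sections of the structure morphism. -/
def rationalPoints {V : Scheme.{0}} (f : V ⟶ Spec (CommRingCat.of ℚ)) : Set V :=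
  {P | ∃ s : Spec (CommRingCat.of ℚ) ⟶ V, s ≫ f = 𝟙 _ ∧ s (IsLocalRing.closedPoint ℚ) = P}

/-- **Main theorem.**  Let `Eᵢ` be elliptic curves `y² = x³ + aᵢ x + bᵢ` over `ℚ` of arbitrary rank
with `aᵢ = 0` or `bᵢ = 0` or the property `Supersingular`.  For all `m ≥ 2`, all `d` and all admissible sets `S` of monomials
there are a number `N₀` and a set `B` of coefficient vectors, with at most `N ^ (|S| - 1/2000)` elements
in every box of side `N ≥ N₀`, such that for all `c ∉ B` the cover `V_c` of degree `m` of `A = ∏ Eᵢ` has no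
rational point; and an integral scheme `V` over `ℚ` whose function field contains elements
`xᵢ, yᵢ, z` satisfying the equations of `V_c` does not have a dense set of rational points. -/
theorem result (n : ℕ) (a b : Fin n → ℤ) (hab : ∀ i, 4 * a i ^ 3 + 27 * b i ^ 2 ≠ 0)
    (hss : ∀ i, a i = 0 ∨ b i = 0 ∨ Supersingular (a i) (b i))
    (m : ℕ) (hm : 2 ≤ m) (d : Fin n → ℕ)
    (S : Finset (ℕ × (Fin n → ℕ × ℕ))) (hS : Admissible m d S) :
    ∃ N₀ : ℕ, ∃ B : Set (S → ℤ),
      (∀ N ≥ N₀, ∀ v : S → ℤ,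
        (Nat.card {c : S → ℤ // c ∈ B ∧ ∀ s, v s ≤ c s ∧ c s < v s + N} : ℝ) ≤
          (N : ℝ) ^ ((S.card : ℝ) - 1 / 2000)) ∧
      ∀ c ∉ B,
        (∀ (P : ∀ i, (E (a i) (b i)).Point) (z : ℚ), ¬ IsPoint a b m d S c P z) ∧
        ∀ (V : Scheme.{0}) [IsIntegral V] (f : V ⟶ Spec (CommRingCat.of ℚ))
          (x y : Fin n → V.functionField) (z : V.functionField),
          (∀ i, y i ^ 2 = x i ^ 3 + (a i : V.functionField) * x i + (b i : V.functionField)) →
          z ^ m + ∑ s : S, (c s : V.functionField) *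
            (∏ i, x i ^ (s.1.2 i).1 * y i ^ (s.1.2 i).2) * z ^ (m - s.1.1) = 0 →
          ¬ Dense (rationalPoints f) := by
  have hS' : Pool.Agent.Helper11.Cov.Adm m d S := hS
  have hiff : ∀ c P z, IsPoint a b m d S c P z ↔
      Pool.Agent.Helper11.Cov.OnCover a b m d S c P z := by
    intro c P z
    unfold IsPoint Pool.Agent.Helper11.Cov.OnCover
    have : ∀ (a b : ℤ) (w j e : ℕ) (Q : (E a b).Point), value w j e Q =
        Pool.Agent.Helper11.Cov.sec w (j, e) Q := by
      intro a b w j e Q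
      cases Q <;> rfl
    simp only [this]
  have hg : ∀ i, Pool.Agent.Helper11.Cov.Good (a i) (b i) := hab
  have hss' : ∀ i, Pool.Agent.Helper6.CI.Supersingular (a i) (b i) := fun i =>
    Pool.Agent.Helper11.Cov.supersingular_of (hab i) (hss i)
  obtain ⟨N₀, hN₀⟩ := Pool.Agent.Helper14.PS.covers_power
    (Pool.Agent.Helper14.PS.key5_ss a b hg hss') hm hS'
  refine ⟨N₀, {c | ∃ P z, Pool.Agent.Helper11.Cov.OnCover a b m d S c P z},
    fun N hN v => hN₀ N hN v, fun c hc => ⟨fun P z h => hc ⟨P, z, (hiff c P z).mp h⟩, ?_⟩⟩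
  intro V _ f x y z hxy hz hdense
  exact hc (Pool.Agent.Helper11.Cov.exists_onCover hg f x y z hxy hz hdense)

end Pool.Agent.Helper14.PS.ResultDraftC
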